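import Pool.Agent.Helper16.TN.Key

/-!
# Construction of a homogeneous Peirce basis
-/

set_option autoImplicit false
set_option linter.unusedVariables false
set_option linter.unusedSectionVars false

universe u

namespace Pool.Agent.Helper16.TN

open Polynomial

variable {k A : Type u} [Field k] [Ring A] [Algebra k A] [Module.Finite k A]
variable {N : Type} [Fintype N] [DecidableEq N]

/-- the homogeneous components -/
noncomputable def dpr (𝒜 : ℕ → Submodule k A) [GradedAlgebra 𝒜] (i : ℕ) : A →ₗ[k] A where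
  toFun v := (DirectSum.decompose 𝒜 v i : A)
  map_add' v w := by simp
  map_smul' c v := by
    rw [DirectSum.decompose_smul]
    rfl

variable {𝒜 : ℕ → Submodule k A} [GradedAlgebra 𝒜] {e : N → A} {s : ℕ}

theorem dpr_mem (i : ℕ) (v : A) : dpr 𝒜 i v ∈ 𝒜 i := (DirectSum.decompose 𝒜 v i).2

theorem dpr_of_mem (i j : ℕ) {v : A} (hv : v ∈ 𝒜 j) : dpr 𝒜 i v = if i = j then v else 0 := by
  split_ifs with h
  · subst h
    exact DirectSum.decompose_of_mem_same 𝒜 hv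
  · exact DirectSum.decompose_of_mem_ne 𝒜 hv (fun h' => h h'.symm)

theorem dpr_total (hs : ∀ i, s < i → 𝒜 i = ⊥) (v : A) :
    ∑ i ∈ Finset.range (s + 1), dpr 𝒜 i v = v := by
  classical
  conv_rhs => rw [← DirectSum.sum_support_decompose 𝒜 v]
  symm
  refine Finset.sum_subset (fun i hi => ?_) (fun i _ hi => ?_)
  · rw [Finset.mem_range]
    by_contra hc
    have h1 : 𝒜 i = ⊥ := hs i (by omega)
    have h2 : (DirectSum.decompose 𝒜 v i : A) = 0 := by
      have h3 := h1.le (DirectSum.decompose 𝒜 v i).2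
      exact (Submodule.mem_bot k).mp h3
    rw [DFinsupp.mem_support_iff] at hi
    exact hi (Subtype.ext h2)
  · rw [DFinsupp.notMem_support_iff] at hi
    rw [hi]
    rfl

/-- hypotheses on an elementary grading -/
structure IsEl (𝒜 : ℕ → Submodule k A) [GradedAlgebra 𝒜] (e : N → A) (s : ℕ) : Prop where
  co : CompleteOrthogonalIdempotents e
  ne : ∀ a, e a ≠ 0
  h0 : 𝒜 0 = Submodule.span k (Set.range e)
  hs : ∀ i, s < i → 𝒜 i = ⊥

/-- the Peirce components -/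
def Pc (𝒜 : ℕ → Submodule k A) (e : N → A) (n : ℕ) (a c : N) : Submodule k A :=
  (𝒜 n).map (LinearMap.mulLeftRight k (e a, e c))

theorem mem_Pc {n : ℕ} {a c : N} {x : A} : x ∈ Pc 𝒜 e n a c ↔ ∃ y ∈ 𝒜 n, e a * y * e c = x := by
  rw [Pc, Submodule.mem_map]
  exact Iff.rfl

theorem IsEl.e_mem (h : IsEl 𝒜 e s) (a : N) : e a ∈ 𝒜 0 := by
  rw [h.h0]
  exact Submodule.subset_span (Set.mem_range_self a)

theorem IsEl.e_mul (h : IsEl 𝒜 e s) (a c : N) : e a * e c = if a = c then e a else 0 :=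
  h.co.toOrthogonalIdempotents.mul_eq a c

theorem IsEl.mem_of_Pc (h : IsEl 𝒜 e s) {n : ℕ} {a c : N} {x : A} (hx : x ∈ Pc 𝒜 e n a c) :
    x ∈ 𝒜 n := by
  obtain ⟨y, hy, rfl⟩ := mem_Pc.mp hx
  have h1 : e a * y ∈ 𝒜 (0 + n) := SetLike.GradedMul.mul_mem (h.e_mem a) hy
  have h2 : e a * y * e c ∈ 𝒜 (0 + n + 0) := SetLike.GradedMul.mul_mem h1 (h.e_mem c)
  rw [zero_add, add_zero] at h2
  exact h2

theorem IsEl.e_mul_Pc (h : IsEl 𝒜 e s) {n : ℕ} {a c : N} {x : A} (hx : x ∈ Pc 𝒜 e n a c) (a' : N) :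
    e a' * x = if a' = a then x else 0 := by
  obtain ⟨y, hy, rfl⟩ := mem_Pc.mp hx
  rw [← mul_assoc, ← mul_assoc, h.e_mul]
  split_ifs with h1
  · rw [h1]
  · rw [zero_mul, zero_mul]

theorem IsEl.Pc_mul_e (h : IsEl 𝒜 e s) {n : ℕ} {a c : N} {x : A} (hx : x ∈ Pc 𝒜 e n a c) (c' : N) :
    x * e c' = if c' = c then x else 0 := by
  obtain ⟨y, hy, rfl⟩ := mem_Pc.mp hx
  rw [mul_assoc, h.e_mul]
  by_cases h1 : c = c'
  · rw [if_pos h1, if_pos h1.symm]
  · rw [if_neg h1, if_neg (fun h => h1 h.symm), mul_zero]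

/-- the projections on the Peirce components -/
noncomputable def pj (𝒜 : ℕ → Submodule k A) [GradedAlgebra 𝒜] (e : N → A) (n : ℕ) (a c : N) :
    A →ₗ[k] A :=
  (LinearMap.mulLeftRight k (e a, e c)) ∘ₗ dpr 𝒜 n

theorem pj_apply (n : ℕ) (a c : N) (x : A) : pj 𝒜 e n a c x = e a * dpr 𝒜 n x * e c := rfl

theorem pj_mem (n : ℕ) (a c : N) (x : A) : pj 𝒜 e n a c x ∈ Pc 𝒜 e n a c :=
  mem_Pc.mpr ⟨dpr 𝒜 n x, dpr_mem n x, rfl⟩

theorem IsEl.pj_of_mem (h : IsEl 𝒜 e s) {n : ℕ} {a c : N} {x : A} (hx : x ∈ Pc 𝒜 e n a c)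
    (n' : ℕ) (a' c' : N) :
    pj 𝒜 e n' a' c' x = if n' = n ∧ a' = a ∧ c' = c then x else 0 := by
  rw [pj_apply, dpr_of_mem n' n (h.mem_of_Pc hx)]
  by_cases h1 : n' = n
  · rw [if_pos h1, h.e_mul_Pc hx]
    by_cases h2 : a' = a
    · rw [if_pos h2, h.Pc_mul_e hx]
      by_cases h3 : c' = c
      · rw [if_pos h3, if_pos ⟨h1, h2, h3⟩]
      · rw [if_neg h3, if_neg (fun h => h3 h.2.2)]
    · rw [if_neg h2, zero_mul, if_neg (fun h => h2 h.2.1)]
  · rw [if_neg h1, mul_zero, zero_mul, if_neg (fun h => h1 h.1)]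

/-- the blocks -/
abbrev Blk (N : Type) (s : ℕ) : Type := Fin (s + 1) × N × N

theorem IsEl.sum_pj (h : IsEl 𝒜 e s) (x : A) :
    ∑ q : Blk N s, pj 𝒜 e q.1 q.2.1 q.2.2 x = x := by
  rw [Fintype.sum_prod_type]
  conv_rhs => rw [← dpr_total h.hs x, Finset.sum_range]
  refine Finset.sum_congr rfl (fun n _ => ?_)
  rw [Fintype.sum_prod_type]
  have h1 : ∀ a c, pj 𝒜 e n a c x = e a * dpr 𝒜 n x * e c := fun a c => rfl
  simp only [h1]
  have h2 : ∀ a, ∑ c, e a * dpr 𝒜 n x * e c = e a * dpr 𝒜 n x := by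
    intro a
    rw [← Finset.mul_sum, h.co.complete, mul_one]
  simp only [h2]
  rw [← Finset.sum_mul, h.co.complete, one_mul]

/-- the Peirce decomposition -/
noncomputable def peq (h : IsEl 𝒜 e s) : A ≃ₗ[k] (∀ q : Blk N s, Pc 𝒜 e q.1 q.2.1 q.2.2) where
  toFun x q := ⟨pj 𝒜 e q.1 q.2.1 q.2.2 x, pj_mem _ _ _ x⟩
  map_add' x y := by
    funext q
    exact Subtype.ext (map_add _ _ _)
  map_smul' c x := by
    funext q
    exact Subtype.ext (map_smul _ _ _)
  invFun f := ∑ q, (f q : A)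
  left_inv x := h.sum_pj x
  right_inv f := by
    funext q
    apply Subtype.ext
    change pj 𝒜 e q.1 q.2.1 q.2.2 (∑ q', (f q' : A)) = f q
    rw [map_sum, Finset.sum_eq_single q]
    · rw [h.pj_of_mem (f q).2, if_pos ⟨rfl, rfl, rfl⟩]
    · intro q' _ hq'
      rw [h.pj_of_mem (f q').2, if_neg]
      rintro ⟨h1, h2, h3⟩
      exact hq' (Prod.ext (Fin.ext h1.symm) (Prod.ext h2.symm h3.symm))
    · intro h'
      exact absurd (Finset.mem_univ _) h'

theorem IsEl.Pc_zero (h : IsEl 𝒜 e s) (a c : N) :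
    Pc 𝒜 e 0 a c = if a = c then Submodule.span k {e a} else ⊥ := by
  apply le_antisymm
  · intro x hx
    obtain ⟨y, hy, rfl⟩ := mem_Pc.mp hx
    rw [h.h0] at hy
    refine Submodule.span_induction (R := k) (M := A) (p := fun (y : A) _ => e a * y * e c ∈
      (if a = c then Submodule.span k {e a} else ⊥ : Submodule k A)) ?_ ?_ ?_ ?_ hy
    · rintro _ ⟨a', rfl⟩
      rw [h.e_mul]
      by_cases h1 : a = a'
      · rw [if_pos h1, h.e_mul]
        by_cases h2 : a = c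
        · rw [if_pos h2, if_pos h2]
          exact Submodule.subset_span rfl
        · rw [if_neg h2, if_neg h2]
          exact (⊥ : Submodule k A).zero_mem
      · rw [if_neg h1, zero_mul]
        exact Submodule.zero_mem _
    · rw [mul_zero, zero_mul]
      exact Submodule.zero_mem _
    · intro y y' _ _ hy hy'
      rw [mul_add, add_mul]
      exact Submodule.add_mem _ hy hy'
    · intro r y _ hy
      rw [mul_smul_comm, smul_mul_assoc]
      exact Submodule.smul_mem _ r hy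
  · by_cases h1 : a = c
    · rw [if_pos h1, Submodule.span_le]
      rintro _ rfl
      exact mem_Pc.mpr ⟨e a, h.e_mem a, by rw [h.e_mul, if_pos rfl, h.e_mul, if_pos h1]⟩
    · rw [if_neg h1]
      exact bot_le

theorem IsEl.finrank_Pc_zero (h : IsEl 𝒜 e s) (a c : N) :
    Module.finrank k (Pc 𝒜 e 0 a c) = if a = c then 1 else 0 := by
  rw [h.Pc_zero]
  by_cases h1 : a = c
  · rw [if_pos h1, if_pos h1, finrank_span_singleton (h.ne a)]
  · rw [if_neg h1, if_neg h1, finrank_bot]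

theorem IsEl.e_mem_Pc (h : IsEl 𝒜 e s) (a : N) : e a ∈ Pc 𝒜 e 0 a a := by
  rw [h.Pc_zero, if_pos rfl]
  exact Submodule.subset_span rfl

theorem exists_bb (h : IsEl 𝒜 e s) (q : Blk N s) :
    ∃ bb : Module.Basis (Fin (Module.finrank k (Pc 𝒜 e q.1 q.2.1 q.2.2))) k
      (Pc 𝒜 e q.1 q.2.1 q.2.2),
      (q.1 : ℕ) = 0 → q.2.1 = q.2.2 → ∀ i, (bb i : A) = e q.2.1 := by
  obtain ⟨n, a, c⟩ := q
  by_cases h1 : (n : ℕ) = 0 ∧ a = c
  · obtain ⟨hn, hac⟩ := h1
    subst hac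
    have h2 : Module.finrank k (Pc 𝒜 e n a a) = 1 := by
      rw [hn, h.finrank_Pc_zero, if_pos rfl]
    have h3 : e a ∈ Pc 𝒜 e n a a := by
      rw [hn]
      exact h.e_mem_Pc a
    have h4 : (⟨e a, h3⟩ : Pc 𝒜 e n a a) ≠ 0 := fun h' => h.ne a (congrArg Subtype.val h')
    refine ⟨(FiniteDimensional.basisSingleton (Fin 1) h2 ⟨e a, h3⟩ h4).reindex (finCongr h2.symm), ?_⟩
    intro _ _ i
    rw [Module.Basis.reindex_apply, FiniteDimensional.basisSingleton_apply]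
  · refine ⟨Module.finBasis k _, fun hn hac => absurd ⟨hn, hac⟩ h1⟩

/-- the bases of the components -/
noncomputable def bb (h : IsEl 𝒜 e s) (q : Blk N s) :
    Module.Basis (Fin (Module.finrank k (Pc 𝒜 e q.1 q.2.1 q.2.2))) k (Pc 𝒜 e q.1 q.2.1 q.2.2) :=
  Classical.choose (exists_bb h q)

theorem bb_spec (h : IsEl 𝒜 e s) (q : Blk N s) (hn : (q.1 : ℕ) = 0) (hac : q.2.1 = q.2.2)
    (i : Fin (Module.finrank k (Pc 𝒜 e q.1 q.2.1 q.2.2))) : (bb h q i : A) = e q.2.1 :=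
  Classical.choose_spec (exists_bb h q) hn hac i

/-- the index set of the homogeneous Peirce basis -/
abbrev Jx (𝒜 : ℕ → Submodule k A) (e : N → A) (s : ℕ) : Type :=
  Σ q : Blk N s, Fin (Module.finrank k (Pc 𝒜 e q.1 q.2.1 q.2.2))

/-- the homogeneous Peirce basis -/
noncomputable def pbas (h : IsEl 𝒜 e s) : Module.Basis (Jx 𝒜 e s) k A :=
  (Pi.basis (bb h)).map (peq h).symm

theorem pbas_repr (h : IsEl 𝒜 e s) (x : A) (j : Jx 𝒜 e s) :
    (pbas h).repr x j = (bb h j.1).repr (peq h x j.1) j.2 := by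
  rw [pbas, Module.Basis.map_repr]
  change (Pi.basis (bb h)).repr ((peq h).symm.symm x) j = _
  rw [LinearEquiv.symm_symm, Pi.basis_repr]

theorem pbas_apply (h : IsEl 𝒜 e s) (j : Jx 𝒜 e s) : pbas h j = (bb h j.1 j.2 : A) := by
  apply (peq h).injective
  rw [pbas, Module.Basis.map_apply, LinearEquiv.apply_symm_apply, Pi.basis_apply]
  funext q
  apply Subtype.ext
  change _ = pj 𝒜 e q.1 q.2.1 q.2.2 (bb h j.1 j.2 : A)
  rw [h.pj_of_mem (bb h j.1 j.2).2]
  by_cases h1 : q = j.1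
  · subst h1
    rw [Pi.single_eq_same, if_pos ⟨rfl, rfl, rfl⟩]
  · rw [Pi.single_eq_of_ne h1, if_neg]
    · rfl
    · rintro ⟨h2, h3, h4⟩
      exact h1 (Prod.ext (Fin.ext h2) (Prod.ext h3 h4))

theorem pbas_mem (h : IsEl 𝒜 e s) (j : Jx 𝒜 e s) :
    pbas h j ∈ Pc 𝒜 e j.1.1 j.1.2.1 j.1.2.2 := by
  rw [pbas_apply]
  exact (bb h j.1 j.2).2

theorem pbas_block (h : IsEl 𝒜 e s) {n : ℕ} {a c : N} {x : A} (hx : x ∈ Pc 𝒜 e n a c)
    (j : Jx 𝒜 e s) (hj : (pbas h).repr x j ≠ 0) :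
    (j.1.1 : ℕ) = n ∧ j.1.2.1 = a ∧ j.1.2.2 = c := by
  rw [pbas_repr] at hj
  have h1 : peq h x j.1 ≠ 0 := by
    intro h0
    rw [h0, map_zero, Finsupp.zero_apply] at hj
    exact hj rfl
  have h2 : pj 𝒜 e j.1.1 j.1.2.1 j.1.2.2 x ≠ 0 := fun h0 => h1 (Subtype.ext h0)
  rw [h.pj_of_mem hx] at h2
  by_contra h3
  rw [if_neg h3] at h2
  exact h2 rfl

/-- the index of the idempotent `e a` -/
noncomputable def zix (h : IsEl 𝒜 e s) (a : N) : Jx 𝒜 e s :=
  ⟨(0, a, a), ⟨0, by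
    change 0 < Module.finrank k (Pc 𝒜 e 0 a a)
    rw [h.finrank_Pc_zero, if_pos rfl]
    exact one_pos⟩⟩

theorem pbas_zix (h : IsEl 𝒜 e s) (a : N) : pbas h (zix h a) = e a := by
  rw [pbas_apply]
  exact bb_spec h (zix h a).1 rfl rfl _

theorem Pc_mul (h : IsEl 𝒜 e s) {n n' : ℕ} {a c a' c' : N} {x y : A} (hx : x ∈ Pc 𝒜 e n a c)
    (hy : y ∈ Pc 𝒜 e n' a' c') : x * y ∈ Pc 𝒜 e (n + n') a c' := by
  refine mem_Pc.mpr ⟨x * y, SetLike.GradedMul.mul_mem (h.mem_of_Pc hx) (h.mem_of_Pc hy), ?_⟩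
  rw [← mul_assoc, h.e_mul_Pc hx, if_pos rfl, mul_assoc, h.Pc_mul_e hy, if_pos rfl]

theorem isPB (h : IsEl 𝒜 e s) : IsPB (pbas h) (fun j : Jx 𝒜 e s => (j.1.1 : ℕ))
    (fun j : Jx 𝒜 e s => j.1.2.1) (fun j : Jx 𝒜 e s => j.1.2.2) (zix h) where
  zdg a := rfl
  zl a := rfl
  zr a := rfl
  pos := by
    rintro ⟨⟨n, a, c⟩, i⟩ hn
    have hn' : n = 0 := Fin.ext hn
    subst hn'
    have h1 : Module.finrank k (Pc 𝒜 e 0 a c) = if a = c then 1 else 0 := h.finrank_Pc_zero a c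
    by_cases hac : a = c
    · subst hac
      rw [if_pos rfl] at h1
      change (⟨(0, a, a), i⟩ : Jx 𝒜 e s) = zix h a
      have h2 : i = (zix h a).2 := by
        apply Fin.ext
        have h3 := i.2
        have h4 := (zix h a).2.2
        change (i : ℕ) < Module.finrank k (Pc 𝒜 e 0 a a) at h3
        change ((zix h a).2 : ℕ) < Module.finrank k (Pc 𝒜 e 0 a a) at h4
        omega
      rw [h2]
      rfl
    · exfalso
      rw [if_neg hac] at h1
      have h3 := i.2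
      change (i : ℕ) < Module.finrank k (Pc 𝒜 e 0 a c) at h3
      omega
  one := by
    rw [← h.co.complete]
    exact Finset.sum_congr rfl (fun a _ => pbas_zix h a)
  mul := by
    intro i j q hq
    have h1 := pbas_block h (Pc_mul h (pbas_mem h i) (pbas_mem h j)) q hq
    refine ⟨h1.1, h1.2.1, h1.2.2, ?_⟩
    by_contra h2
    have h3 : pbas h i * pbas h j = 0 := by
      have h4 := h.Pc_mul_e (pbas_mem h i) i.1.2.2
      rw [if_pos rfl] at h4
      rw [← h4, mul_assoc, h.e_mul_Pc (pbas_mem h j), if_neg h2, mul_zero]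
    rw [h3, map_zero, Finsupp.zero_apply] at hq
    exact hq rfl

theorem dg_le (j : Jx 𝒜 e s) : (j.1.1 : ℕ) ≤ s := Nat.le_of_lt_succ j.1.1.2

theorem sum_block (a c : N) (f : ℕ → ℤ[X]) :
    (∑ j : Jx 𝒜 e s, if j.1.2.1 = a ∧ j.1.2.2 = c then f j.1.1 else 0) =
      ∑ n ∈ Finset.range (s + 1), (Module.finrank k (Pc 𝒜 e n a c) : ℤ[X]) * f n := by
  rw [Fintype.sum_sigma, Fintype.sum_prod_type, Finset.sum_range]
  refine Finset.sum_congr rfl (fun n _ => ?_)
  rw [Fintype.sum_prod_type, Finset.sum_eq_single a]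
  · rw [Finset.sum_eq_single c]
    · change (∑ _y : Fin (Module.finrank k (Pc 𝒜 e n a c)), if a = a ∧ c = c then f n else 0) = _
      rw [if_pos ⟨rfl, rfl⟩, Finset.sum_const, Finset.card_univ, Fintype.card_fin, nsmul_eq_mul]
    · intro c' _ hc'
      refine Finset.sum_eq_zero (fun y _ => ?_)
      exact if_neg (fun h => hc' h.2)
    · intro h
      exact absurd (Finset.mem_univ _) h
  · intro a' _ ha'
    refine Finset.sum_eq_zero (fun c' _ => ?_)
    refine Finset.sum_eq_zero (fun y _ => ?_)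
    exact if_neg (fun h => ha' h.1)
  · intro h
    exact absurd (Finset.mem_univ _) h

end Pool.Agent.Helper16.TN
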