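import Mathlib

/-!
# Homogeneous Peirce bases of elementary graded algebras and of graded modules
-/

set_option autoImplicit false
set_option linter.unusedVariables false
set_option linter.unusedSectionVars false

universe u

namespace Pool.Agent.Helper16.TN

variable {k A : Type u} [Field k] [Ring A] [Algebra k A]
variable {ι : Type} [Fintype ι] [DecidableEq ι]
variable {N : Type} [Fintype N] [DecidableEq N]
variable {M : Type u} [AddCommGroup M] [Module k M] [Module A M] [IsScalarTower k A M]
variable {κ : Type} [Fintype κ] [DecidableEq κ]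

/-- a homogeneous Peirce basis of an elementary graded algebra: the basis vector `b i` is
homogeneous of degree `dg i` and lies in `e (l i) A e (r i)`, where `e a = b (z a)` are the
primitive idempotents of degree `0` -/
structure IsPB (b : Module.Basis ι k A) (dg : ι → ℕ) (l r : ι → N) (z : N → ι) : Prop where
  zdg : ∀ a, dg (z a) = 0
  zl : ∀ a, l (z a) = a
  zr : ∀ a, r (z a) = a
  pos : ∀ i, dg i = 0 → i = z (r i)
  one : ∑ a, b (z a) = 1
  mul : ∀ i j q, b.repr (b i * b j) q ≠ 0 →
    dg q = dg i + dg j ∧ l q = l i ∧ r q = r j ∧ r i = l j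

/-- a homogeneous basis of a graded module adapted to the idempotents -/
structure IsMB (b : Module.Basis ι k A) (dg : ι → ℕ) (l r : ι → N)
    (c : Module.Basis κ k M) (e : κ → ℕ) (v : κ → N) : Prop where
  act : ∀ i j q, c.repr (b i • c j) q ≠ 0 → e q = dg i + e j ∧ v q = l i ∧ r i = v j

variable {b : Module.Basis ι k A} {dg : ι → ℕ} {l r : ι → N} {z : N → ι}

theorem IsPB.mul_zero' (h : IsPB b dg l r z) {i j : ι} (hij : r i ≠ l j) : b i * b j = 0 := by
  apply b.repr.injective
  ext q
  rw [map_zero, Finsupp.zero_apply]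
  by_contra hq
  exact hij (h.mul i j q hq).2.2.2

theorem IsPB.mul_z (h : IsPB b dg l r z) (i : ι) (a : N) :
    b i * b (z a) = if r i = a then b i else 0 := by
  by_cases hi : r i = a
  · rw [if_pos hi]
    have h1 : b i * ∑ a, b (z a) = b i := by rw [h.one, mul_one]
    rw [Finset.mul_sum, Finset.sum_eq_single a] at h1
    · exact h1
    · intro a' _ ha'
      apply h.mul_zero'
      rw [h.zl, hi]
      exact fun h => ha' h.symm
    · intro h'
      exact absurd (Finset.mem_univ _) h'
  · rw [if_neg hi]
    apply h.mul_zero'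
    rw [h.zl]
    exact hi

theorem IsPB.z_mul (h : IsPB b dg l r z) (i : ι) (a : N) :
    b (z a) * b i = if l i = a then b i else 0 := by
  by_cases hi : l i = a
  · rw [if_pos hi]
    have h1 : (∑ a, b (z a)) * b i = b i := by rw [h.one, one_mul]
    rw [Finset.sum_mul, Finset.sum_eq_single a] at h1
    · exact h1
    · intro a' _ ha'
      apply h.mul_zero'
      rw [h.zr, hi]
      exact ha'
    · intro h'
      exact absurd (Finset.mem_univ _) h'
  · rw [if_neg hi]
    apply h.mul_zero'
    rw [h.zr]
    exact fun h => hi h.symm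

theorem IsPB.repr_mul_z (h : IsPB b dg l r z) (x : A) (a : N) (i : ι) :
    b.repr (x * b (z a)) i = if r i = a then b.repr x i else 0 := by
  conv_lhs => rw [← b.sum_repr x, Finset.sum_mul, map_sum, Finsupp.finsetSum_apply]
  have h1 : ∀ j, b.repr (b.repr x j • b j * b (z a)) i =
      if j = i then (if r i = a then b.repr x i else 0) else 0 := by
    intro j
    rw [smul_mul_assoc, h.mul_z, map_smul, Finsupp.smul_apply]
    by_cases hji : j = i
    · subst hji
      rw [if_pos rfl]
      by_cases ha : r j = a
      · rw [if_pos ha, if_pos ha, Module.Basis.repr_self, Finsupp.single_eq_same, smul_eq_mul,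
          mul_one]
      · rw [if_neg ha, if_neg ha, map_zero, Finsupp.zero_apply, smul_zero]
    · rw [if_neg hji]
      by_cases ha : r j = a
      · rw [if_pos ha, Module.Basis.repr_self, Finsupp.single_apply, if_neg hji, smul_zero]
      · rw [if_neg ha, map_zero, Finsupp.zero_apply, smul_zero]
  simp only [h1]
  rw [Finset.sum_ite_eq' Finset.univ i, if_pos (Finset.mem_univ _)]

theorem IsPB.repr_z_mul (h : IsPB b dg l r z) (x : A) (a : N) (i : ι) :
    b.repr (b (z a) * x) i = if l i = a then b.repr x i else 0 := by
  conv_lhs => rw [← b.sum_repr x, Finset.mul_sum, map_sum, Finsupp.finsetSum_apply]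
  have h1 : ∀ j, b.repr (b (z a) * b.repr x j • b j) i =
      if j = i then (if l i = a then b.repr x i else 0) else 0 := by
    intro j
    rw [mul_smul_comm, h.z_mul, map_smul, Finsupp.smul_apply]
    by_cases hji : j = i
    · subst hji
      rw [if_pos rfl]
      by_cases ha : l j = a
      · rw [if_pos ha, if_pos ha, Module.Basis.repr_self, Finsupp.single_eq_same, smul_eq_mul,
          mul_one]
      · rw [if_neg ha, if_neg ha, map_zero, Finsupp.zero_apply, smul_zero]
    · rw [if_neg hji]
      by_cases ha : l j = a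
      · rw [if_pos ha, Module.Basis.repr_self, Finsupp.single_apply, if_neg hji, smul_zero]
      · rw [if_neg ha, map_zero, Finsupp.zero_apply, smul_zero]
  simp only [h1]
  rw [Finset.sum_ite_eq' Finset.univ i, if_pos (Finset.mem_univ _)]

/-- `x e_a = x` as soon as all components of `x` have right index `a` -/
theorem IsPB.mul_z_eq (h : IsPB b dg l r z) (x : A) (a : N)
    (hx : ∀ i, b.repr x i ≠ 0 → r i = a) : x * b (z a) = x := by
  apply b.repr.injective
  ext i
  rw [h.repr_mul_z]
  by_cases hi : r i = a
  · rw [if_pos hi]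
  · rw [if_neg hi]
    by_contra h0
    exact hi (hx i (fun h1 => h0 h1.symm))

theorem IsPB.z_mul_eq (h : IsPB b dg l r z) (x : A) (a : N)
    (hx : ∀ i, b.repr x i ≠ 0 → l i = a) : b (z a) * x = x := by
  apply b.repr.injective
  ext i
  rw [h.repr_z_mul]
  by_cases hi : l i = a
  · rw [if_pos hi]
  · rw [if_neg hi]
    by_contra h0
    exact hi (hx i (fun h1 => h0 h1.symm))

variable {c : Module.Basis κ k M} {e : κ → ℕ} {v : κ → N}

theorem IsMB.act_zero (h : IsMB b dg l r c e v) {i : ι} {j : κ} (hij : r i ≠ v j) :
    b i • c j = 0 := by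
  apply c.repr.injective
  ext q
  rw [map_zero, Finsupp.zero_apply]
  by_contra hq
  exact hij (h.act i j q hq).2.2

theorem IsMB.z_act (hB : IsPB b dg l r z) (h : IsMB b dg l r c e v) (a : N) (j : κ) :
    b (z a) • c j = if v j = a then c j else 0 := by
  by_cases hj : v j = a
  · rw [if_pos hj]
    have h1 : (∑ a, b (z a)) • c j = c j := by rw [hB.one, one_smul]
    rw [Finset.sum_smul, Finset.sum_eq_single a] at h1
    · exact h1
    · intro a' _ ha'
      apply h.act_zero
      rw [hB.zr, hj]
      exact ha'
    · intro h'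
      exact absurd (Finset.mem_univ _) h'
  · rw [if_neg hj]
    apply h.act_zero
    rw [hB.zr]
    exact fun h => hj h.symm

/-- the projection of `A` onto the span of the basis vectors satisfying `P` -/
noncomputable def rho (b : Module.Basis ι k A) (P : ι → Prop) [DecidablePred P] : A →ₗ[k] A :=
  b.constr k (fun i => if P i then b i else 0)

theorem rho_b (P : ι → Prop) [DecidablePred P] (i : ι) :
    rho b P (b i) = if P i then b i else 0 := by
  rw [rho, Module.Basis.constr_basis]

theorem repr_rho (P : ι → Prop) [DecidablePred P] (x : A) (i : ι) :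
    b.repr (rho b P x) i = if P i then b.repr x i else 0 := by
  conv_lhs => rw [← b.sum_repr x, map_sum, map_sum, Finsupp.finsetSum_apply]
  have h1 : ∀ j, b.repr (rho b P (b.repr x j • b j)) i =
      if j = i then (if P i then b.repr x i else 0) else 0 := by
    intro j
    rw [map_smul, rho_b, map_smul, Finsupp.smul_apply]
    by_cases hji : j = i
    · subst hji
      rw [if_pos rfl]
      by_cases ha : P j
      · rw [if_pos ha, if_pos ha, Module.Basis.repr_self, Finsupp.single_eq_same, smul_eq_mul,
          mul_one]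
      · rw [if_neg ha, if_neg ha, map_zero, Finsupp.zero_apply, smul_zero]
    · rw [if_neg hji]
      by_cases ha : P j
      · rw [if_pos ha, Module.Basis.repr_self, Finsupp.single_apply, if_neg hji, smul_zero]
      · rw [if_neg ha, map_zero, Finsupp.zero_apply, smul_zero]
  simp only [h1]
  rw [Finset.sum_ite_eq' Finset.univ i, if_pos (Finset.mem_univ _)]

theorem rho_eq_self (P : ι → Prop) [DecidablePred P] (x : A) (hx : ∀ i, b.repr x i ≠ 0 → P i) :
    rho b P x = x := by
  apply b.repr.injective
  ext i
  rw [repr_rho]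
  by_cases hi : P i
  · rw [if_pos hi]
  · rw [if_neg hi]
    by_contra h0
    exact hi (hx i (fun h1 => h0 h1.symm))

theorem rho_eq_zero (P : ι → Prop) [DecidablePred P] (x : A) (hx : ∀ i, b.repr x i ≠ 0 → ¬ P i) :
    rho b P x = 0 := by
  apply b.repr.injective
  ext i
  rw [repr_rho, map_zero, Finsupp.zero_apply]
  by_cases hi : P i
  · rw [if_pos hi]
    by_contra h0
    exact hx i h0 hi
  · rw [if_neg hi]

/-- the product of a homogeneous element and a basis vector -/
theorem IsPB.mul_hom (h : IsPB b dg l r z) {y : A} {p : ℕ} (hy : ∀ i, b.repr y i ≠ 0 → dg i = p)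
    (j q : ι) (hq : b.repr (y * b j) q ≠ 0) : dg q = p + dg j ∧ r q = r j := by
  rw [← b.sum_repr y, Finset.sum_mul, map_sum, Finsupp.finsetSum_apply] at hq
  obtain ⟨i, _, hi⟩ := Finset.exists_ne_zero_of_sum_ne_zero hq
  rw [smul_mul_assoc, map_smul, Finsupp.smul_apply, smul_eq_mul] at hi
  have h1 := hy i (left_ne_zero_of_mul hi)
  have h2 := h.mul i j q (right_ne_zero_of_mul hi)
  exact ⟨by omega, h2.2.2.1⟩

/-- multiplication by a homogeneous element of degree `p` shifts homogeneous components -/
theorem IsPB.mul_rho (h : IsPB b dg l r z) {y : A} {p : ℕ} (hy : ∀ i, b.repr y i ≠ 0 → dg i = p)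
    (d n : ℕ) (t : N) (x : A) :
    y * rho b (fun i => dg i + d = n ∧ r i = t) x =
      rho b (fun i => dg i + d = p + n ∧ r i = t) (y * x) := by
  have h1 : (LinearMap.mulLeft k y) ∘ₗ (rho b (fun i => dg i + d = n ∧ r i = t)) =
      (rho b (fun i => dg i + d = p + n ∧ r i = t)) ∘ₗ (LinearMap.mulLeft k y) := by
    apply b.ext
    intro j
    change y * rho b (fun i => dg i + d = n ∧ r i = t) (b j) =
      rho b (fun i => dg i + d = p + n ∧ r i = t) (y * b j)
    rw [rho_b]
    by_cases hj : dg j + d = n ∧ r j = t
    · rw [if_pos hj, rho_eq_self]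
      intro q hq
      have h2 := h.mul_hom hy j q hq
      exact ⟨by omega, h2.2.trans hj.2⟩
    · rw [if_neg hj, mul_zero, rho_eq_zero]
      intro q hq hq'
      have h2 := h.mul_hom hy j q hq
      exact hj ⟨by omega, h2.2.symm.trans hq'.2⟩
  exact congrArg (fun f => f x) h1

end Pool.Agent.Helper16.TN
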