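import Pool.Agent.Helper16.TN.ZB
import Pool.Agent.Helper16.TN.Les

/-!
# Homogeneous homomorphisms into `A`, and the dimension formula
-/

set_option autoImplicit false
set_option linter.unusedVariables false
set_option linter.unusedSectionVars false

universe u

namespace Pool.Agent.Helper16.TN

variable {k A : Type u} [Field k] [Ring A] [Algebra k A]
variable {ι : Type} [Fintype ι] [DecidableEq ι]
variable {N : Type} [Fintype N] [DecidableEq N]
variable {M : Type u} [AddCommGroup M] [Module k M] [Module A M] [IsScalarTower k A M]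
variable {κ : Type} [Fintype κ] [DecidableEq κ]

/-- the space of homogeneous homomorphisms `M → A` of degree `s - d` with values in `A e_t` -/
def HD (b : Module.Basis ι k A) (dg : ι → ℕ) (r : ι → N) (c : Module.Basis κ k M) (e : κ → ℕ)
    (s d : ℕ) (t : N) : Submodule k (M →ₗ[A] A) where
  carrier := {f | ∀ j i, b.repr (f (c j)) i ≠ 0 → dg i + d = e j + s ∧ r i = t}
  add_mem' := by
    intro f g hf hg j i h
    rw [LinearMap.add_apply, map_add, Finsupp.add_apply] at h
    by_cases h1 : b.repr (f (c j)) i = 0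
    · rw [h1, zero_add] at h
      exact hg j i h
    · exact hf j i h1
  zero_mem' := by
    intro j i h
    rw [LinearMap.zero_apply, map_zero, Finsupp.zero_apply] at h
    exact absurd rfl h
  smul_mem' := by
    intro a f hf j i h
    rw [LinearMap.smul_apply, map_smul, Finsupp.smul_apply, smul_eq_mul] at h
    exact hf j i (right_ne_zero_of_mul h)

theorem mem_HD {b : Module.Basis ι k A} {dg : ι → ℕ} {r : ι → N} {c : Module.Basis κ k M}
    {e : κ → ℕ} {s d : ℕ} {t : N} {f : M →ₗ[A] A} :
    f ∈ HD b dg r c e s d t ↔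
      ∀ j i, b.repr (f (c j)) i ≠ 0 → dg i + d = e j + s ∧ r i = t := Iff.rfl

/-- the space of homogeneous homomorphisms `PM → A` of degree `s - d` with values in `A e_t`,
given by the images of the generators -/
def KD (b : Module.Basis ι k A) (dg : ι → ℕ) (l r : ι → N) (e : κ → ℕ) (v : κ → N)
    (s d : ℕ) (t : N) : Submodule k (κ → A) where
  carrier := {x | ∀ j i, b.repr (x j) i ≠ 0 → dg i + d = e j + s ∧ r i = t ∧ l i = v j}
  add_mem' := by
    intro f g hf hg j i h
    rw [Pi.add_apply, map_add, Finsupp.add_apply] at h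
    by_cases h1 : b.repr (f j) i = 0
    · rw [h1, zero_add] at h
      exact hg j i h
    · exact hf j i h1
  zero_mem' := by
    intro j i h
    rw [Pi.zero_apply, map_zero, Finsupp.zero_apply] at h
    exact absurd rfl h
  smul_mem' := by
    intro a f hf j i h
    rw [Pi.smul_apply, map_smul, Finsupp.smul_apply, smul_eq_mul] at h
    exact hf j i (right_ne_zero_of_mul h)

theorem mem_KD {b : Module.Basis ι k A} {dg : ι → ℕ} {l r : ι → N}
    {e : κ → ℕ} {v : κ → N} {s d : ℕ} {t : N} {x : κ → A} :
    x ∈ KD b dg l r e v s d t ↔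
      ∀ j i, b.repr (x j) i ≠ 0 → dg i + d = e j + s ∧ r i = t ∧ l i = v j := Iff.rfl

variable {b : Module.Basis ι k A} {dg : ι → ℕ} {l r : ι → N} {z : N → ι}
variable {c : Module.Basis κ k M} {e : κ → ℕ} {v : κ → N}

/-- the values of a homomorphism on the basis vectors have the right left index -/
theorem hom_left (hB : IsPB b dg l r z) (hC : IsMB b dg l r c e v) (f : M →ₗ[A] A) (j : κ) (i : ι)
    (h : b.repr (f (c j)) i ≠ 0) : l i = v j := by
  have h1 : b (z (v j)) * f (c j) = f (c j) := by
    rw [← smul_eq_mul, ← map_smul, hC.z_act hB, if_pos rfl]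
  rw [← h1, hB.repr_z_mul] at h
  by_contra h2
  rw [if_neg h2] at h
  exact h rfl

/-- restriction to the generators -/
noncomputable def alp (hB : IsPB b dg l r z) (hC : IsMB b dg l r c e v) (s d : ℕ) (t : N) :
    HD b dg r c e s d t →ₗ[k] KD b dg l r e v s d t where
  toFun f := ⟨fun j => f.1 (c j), fun j i h =>
    ⟨(f.2 j i h).1, (f.2 j i h).2, hom_left hB hC f.1 j i h⟩⟩
  map_add' f g := rfl
  map_smul' a f := rfl

theorem alp_inj (hB : IsPB b dg l r z) (hC : IsMB b dg l r c e v) (s d : ℕ) (t : N) :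
    Function.Injective (alp hB hC s d t) := by
  intro f g hfg
  apply Subtype.ext
  ext m
  rw [← c.sum_repr m, map_sum, map_sum]
  refine Finset.sum_congr rfl (fun j _ => ?_)
  have h1 : f.1 (c j) = g.1 (c j) := congrFun (congrArg Subtype.val hfg) j
  rw [← algebraMap_smul A, map_smul, map_smul, h1]

/-- the homomorphism `PM → A` with given images of the generators, restricted to the syzygy -/
noncomputable def betf (b : Module.Basis ι k A) (z : N → ι) (c : Module.Basis κ k M) (v : κ → N)
    (x : κ → A) : Zk b z c v →ₗ[A] A where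
  toFun y := ∑ j, y.1.1 j * x j
  map_add' y y' := by
    rw [← Finset.sum_add_distrib]
    exact Finset.sum_congr rfl (fun j _ => add_mul _ _ _)
  map_smul' a y := by
    rw [RingHom.id_apply, smul_eq_mul, Finset.mul_sum]
    exact Finset.sum_congr rfl (fun j _ => mul_assoc _ _ _)

theorem betf_apply (x : κ → A) (y : Zk b z c v) : betf b z c v x y = ∑ j, y.1.1 j * x j := rfl

/-- the homogeneous homomorphisms of the syzygy module -/
noncomputable abbrev HDZ (hB : IsPB b dg l r z) (hC : IsMB b dg l r c e v) (s d : ℕ) (t : N) :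
    Submodule k (Zk b z c v →ₗ[A] A) :=
  HD (M := Zk b z c v) b dg r (zb hB hC) (fun p : ZI dg r v => dg p.1.1 + e p.1.2) s d t

theorem betf_mem (hB : IsPB b dg l r z) (hC : IsMB b dg l r c e v) (s d : ℕ) (t : N) (x : κ → A)
    (hx : x ∈ KD b dg l r e v s d t) :
    betf b z c v x ∈ HDZ hB hC s d t := by
  intro p i h
  rw [betf_apply, map_sum, Finsupp.finsetSum_apply] at h
  obtain ⟨q, _, hq⟩ := Finset.exists_ne_zero_of_sum_ne_zero h
  rw [← b.sum_repr (x q), Finset.mul_sum, map_sum, Finsupp.finsetSum_apply] at hq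
  obtain ⟨j, _, hj⟩ := Finset.exists_ne_zero_of_sum_ne_zero hq
  rw [mul_smul_comm, map_smul, Finsupp.smul_apply, smul_eq_mul] at hj
  have h1 := hx q j (left_ne_zero_of_mul hj)
  have h2 := right_ne_zero_of_mul hj
  rw [← b.sum_repr (((zb hB hC p : Zk b z c v).1).1 q), Finset.sum_mul, map_sum,
    Finsupp.finsetSum_apply] at h2
  obtain ⟨j', _, hj'⟩ := Finset.exists_ne_zero_of_sum_ne_zero h2
  rw [smul_mul_assoc, map_smul, Finsupp.smul_apply, smul_eq_mul] at hj'
  have h3 := zb_comp hB hC p q j' (left_ne_zero_of_mul hj')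
  have h4 := hB.mul j' j i (right_ne_zero_of_mul hj')
  have h5 : dg i + d = (dg p.1.1 + e p.1.2) + s := by
    have := h3.1; have := h4.1; have := h1.1; omega
  exact ⟨h5, h4.2.2.1.trans h1.2.1⟩

/-- the map to the homomorphisms of the syzygy -/
noncomputable def bet (hB : IsPB b dg l r z) (hC : IsMB b dg l r c e v) (s d : ℕ) (t : N) :
    KD b dg l r e v s d t →ₗ[k] HDZ hB hC s d t where
  toFun x := ⟨betf b z c v x.1, betf_mem hB hC s d t x.1 x.2⟩
  map_add' x y := by
    apply Subtype.ext
    ext w
    change ∑ j, w.1.1 j * (x.1 j + y.1 j) = ∑ j, w.1.1 j * x.1 j + ∑ j, w.1.1 j * y.1 j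
    rw [← Finset.sum_add_distrib]
    exact Finset.sum_congr rfl (fun j _ => mul_add _ _ _)
  map_smul' a x := by
    apply Subtype.ext
    ext w
    change ∑ j, w.1.1 j * (a • x.1 j) = a • ∑ j, w.1.1 j * x.1 j
    rw [Finset.smul_sum]
    exact Finset.sum_congr rfl (fun j _ => mul_smul_comm _ _ _)

/-- exactness in the middle -/
theorem bet_ker (hB : IsPB b dg l r z) (hC : IsMB b dg l r c e v) (s d : ℕ) (t : N) :
    LinearMap.ker (bet hB hC s d t) = LinearMap.range (alp hB hC s d t) := by
  apply le_antisymm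
  · intro x hx
    rw [LinearMap.mem_ker] at hx
    have hx1 : ∀ w : Zk b z c v, ∑ j, w.1.1 j * x.1 j = 0 := by
      intro w
      exact congrArg (fun f => f.1 w) hx
    let ψ : PM b z v →ₗ[A] A :=
      { toFun := fun y => ∑ j, y.1 j * x.1 j
        map_add' := fun y y' => by
          rw [← Finset.sum_add_distrib]
          exact Finset.sum_congr rfl (fun j _ => add_mul _ _ _)
        map_smul' := fun a y => by
          rw [RingHom.id_apply, smul_eq_mul, Finset.mul_sum]
          exact Finset.sum_congr rfl (fun j _ => mul_assoc _ _ _) }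
    have hψ : LinearMap.ker (pr b z c v) ≤ LinearMap.ker ψ := by
      intro w hw
      exact hx1 ⟨w, hw⟩
    let f : M →ₗ[A] A :=
      ((LinearMap.ker (pr b z c v)).liftQ ψ hψ) ∘ₗ
        ((pr b z c v).quotKerEquivOfSurjective (pr_surj hB hC)).symm.toLinearMap
    have hf : ∀ y, f (pr b z c v y) = ψ y := by
      intro y
      change ((LinearMap.ker (pr b z c v)).liftQ ψ hψ)
        (((pr b z c v).quotKerEquivOfSurjective (pr_surj hB hC)).symm (pr b z c v y)) = ψ y
      have h1 : ((pr b z c v).quotKerEquivOfSurjective (pr_surj hB hC)).symm (pr b z c v y) =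
          Submodule.Quotient.mk y := by
        rw [LinearEquiv.symm_apply_eq]
        rfl
      rw [h1]
      rfl
    have hxl : ∀ j, b (z (v j)) * x.1 j = x.1 j := by
      intro j
      exact hB.z_mul_eq _ _ (fun i hi => (x.2 j i hi).2.2)
    have hfc : ∀ j, f (c j) = x.1 j := by
      intro j
      have h1 : pr b z c v (sg b z v j (b (z (v j))) (by rw [hB.mul_z, if_pos (hB.zr _)])) =
          c j := by
        rw [pr_sg, hC.z_act hB, if_pos rfl]
      rw [← h1, hf]
      change ∑ q, (Pi.single j (b (z (v j))) : κ → A) q * x.1 q = x.1 j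
      rw [Finset.sum_eq_single j]
      · rw [Pi.single_eq_same, hxl]
      · intro q _ hq
        rw [Pi.single_eq_of_ne hq, zero_mul]
      · intro h
        exact absurd (Finset.mem_univ _) h
    refine ⟨⟨f, ?_⟩, ?_⟩
    · intro j i h
      rw [hfc] at h
      exact ⟨(x.2 j i h).1, (x.2 j i h).2.1⟩
    · apply Subtype.ext
      funext j
      exact hfc j
  · rintro _ ⟨f, rfl⟩
    rw [LinearMap.mem_ker]
    apply Subtype.ext
    ext w
    change ∑ j, w.1.1 j * f.1 (c j) = 0
    have h1 : ∑ j, w.1.1 j * f.1 (c j) = f.1 (∑ j, w.1.1 j • c j) := by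
      rw [map_sum]
      exact Finset.sum_congr rfl (fun j _ => by rw [map_smul, smul_eq_mul])
    have h2 : ∑ j, w.1.1 j • c j = 0 := w.2
    rw [h1, h2, map_zero]

/-- surjectivity, from the vanishing of `Ext^1` -/
theorem bet_surj (hB : IsPB b dg l r z) (hC : IsMB b dg l r c e v) (s d : ℕ) (t : N)
    (hext : Subsingleton
      (CategoryTheory.Abelian.Ext.{u} (ModuleCat.of A M) (ModuleCat.of A A) 1)) :
    Function.Surjective (bet hB hC s d t) := by
  intro φ
  obtain ⟨ψ, hψ⟩ := les_extend (R := A) (X := Zk b z c v) (Y := PM b z v) (Z := M) (W := A)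
    (Zk b z c v).subtype (pr b z c v) Zk_exact
    (Submodule.injective_subtype _) (pr_surj hB hC) hext φ.1
  let x : κ → A := fun j => ψ (sg b z v j (b (z (v j))) (by rw [hB.mul_z, if_pos (hB.zr _)]))
  have hxl : ∀ j, b (z (v j)) * x j = x j := by
    intro j
    rw [← smul_eq_mul, ← map_smul]
    congr 1
    apply Subtype.ext
    funext q
    change b (z (v j)) * (Pi.single j (b (z (v j))) : κ → A) q =
      (Pi.single j (b (z (v j))) : κ → A) q
    by_cases hq : q = j
    · subst hq
      rw [Pi.single_eq_same, hB.mul_z, if_pos (hB.zr _)]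
    · rw [Pi.single_eq_of_ne hq, mul_zero]
  have hψx : ∀ y : PM b z v, ψ y = ∑ j, y.1 j * x j := by
    intro y
    have h1 : y = ∑ j, y.1 j • sg b z v j (b (z (v j))) (by rw [hB.mul_z, if_pos (hB.zr _)]) := by
      apply Subtype.ext
      funext q
      have h2 : ((∑ j, y.1 j • sg b z v j (b (z (v j)))
          (by rw [hB.mul_z, if_pos (hB.zr _)]) : PM b z v) : κ → A) q =
          ∑ j, y.1 j * (Pi.single j (b (z (v j))) : κ → A) q := by
        rw [Submodule.coe_sum, Finset.sum_apply]
        rfl
      rw [h2, Finset.sum_eq_single q]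
      · rw [Pi.single_eq_same]
        exact (y.2 q).symm
      · intro j _ hj
        rw [Pi.single_eq_of_ne (fun h => hj h.symm), mul_zero]
      · intro h
        exact absurd (Finset.mem_univ _) h
    conv_lhs => rw [h1]
    rw [map_sum]
    exact Finset.sum_congr rfl (fun j _ => by rw [map_smul, smul_eq_mul])
  let x' : κ → A := fun j => rho b (fun i => dg i + d = e j + s ∧ r i = t) (x j)
  have hx' : x' ∈ KD b dg l r e v s d t := by
    intro j i h
    rw [repr_rho] at h
    by_cases hP : dg i + d = e j + s ∧ r i = t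
    · rw [if_pos hP, ← hxl j, hB.repr_z_mul] at h
      refine ⟨hP.1, hP.2, ?_⟩
      by_contra h2
      rw [if_neg h2] at h
      exact h rfl
    · rw [if_neg hP] at h
      exact absurd rfl h
  refine ⟨⟨x', hx'⟩, ?_⟩
  apply Subtype.ext
  apply LinearMap.restrictScalars_injective k
  apply (zb hB hC).ext
  intro p
  change ∑ j, ((zb hB hC p : Zk b z c v).1).1 j * x' j = φ.1 (zb hB hC p)
  have h1 : φ.1 (zb hB hC p) = ∑ j, ((zb hB hC p : Zk b z c v).1).1 j * x j := by
    rw [← hψ, ← hψx]
    rfl
  have h2 : rho b (fun i => dg i + d = (dg p.1.1 + e p.1.2) + s ∧ r i = t) (φ.1 (zb hB hC p)) =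
      φ.1 (zb hB hC p) := by
    apply rho_eq_self
    intro i hi
    exact φ.2 p i hi
  rw [← h2, h1, map_sum]
  refine Finset.sum_congr rfl (fun q _ => ?_)
  by_cases hle : e q ≤ dg p.1.1 + e p.1.2
  · have h3 : ∀ i, b.repr (((zb hB hC p : Zk b z c v).1).1 q) i ≠ 0 →
        dg i = dg p.1.1 + e p.1.2 - e q := by
      intro i hi
      have := (zb_comp hB hC p q i hi).1
      omega
    have h4 := hB.mul_rho h3 d (e q + s) t (x q)
    have h5 : dg p.1.1 + e p.1.2 - e q + (e q + s) = (dg p.1.1 + e p.1.2) + s := by omega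
    rw [h5] at h4
    exact h4
  · have h3 : ((zb hB hC p : Zk b z c v).1).1 q = 0 := by
      apply b.repr.injective
      ext i
      rw [map_zero, Finsupp.zero_apply]
      by_contra hi
      have := (zb_comp hB hC p q i hi).1
      omega
    rw [h3, zero_mul, zero_mul, map_zero]

/-- the coordinates on `KD` -/
noncomputable def kcoord (b : Module.Basis ι k A) (dg : ι → ℕ) (l r : ι → N) (e : κ → ℕ)
    (v : κ → N) (s d : ℕ) (t : N) : KD b dg l r e v s d t →ₗ[k]
      ({p : κ × ι // dg p.2 + d = e p.1 + s ∧ r p.2 = t ∧ l p.2 = v p.1} → k) where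
  toFun x p := b.repr (x.1 p.1.1) p.1.2
  map_add' x y := by
    funext p
    change b.repr (x.1 p.1.1 + y.1 p.1.1) p.1.2 = _
    rw [map_add]
    rfl
  map_smul' a x := by
    funext p
    change b.repr (a • x.1 p.1.1) p.1.2 = _
    rw [map_smul]
    rfl

theorem kcoord_bij (b : Module.Basis ι k A) (dg : ι → ℕ) (l r : ι → N) (e : κ → ℕ)
    (v : κ → N) (s d : ℕ) (t : N) : Function.Bijective (kcoord b dg l r e v s d t) := by
  constructor
  · rw [injective_iff_map_eq_zero]
    intro x hx
    apply Subtype.ext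
    funext j
    apply b.repr.injective
    ext i
    change b.repr (x.1 j) i = b.repr 0 i
    rw [map_zero, Finsupp.zero_apply]
    by_contra h
    exact h (congrFun hx ⟨(j, i), x.2 j i h⟩)
  · intro y
    classical
    let x : κ → A := fun j => ∑ i, if h : dg i + d = e j + s ∧ r i = t ∧ l i = v j then
      y ⟨(j, i), h⟩ • b i else 0
    have hx : ∀ j i, b.repr (x j) i =
        if h : dg i + d = e j + s ∧ r i = t ∧ l i = v j then y ⟨(j, i), h⟩ else 0 := by
      intro j i
      rw [map_sum, Finsupp.finsetSum_apply, Finset.sum_eq_single i]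
      · by_cases h : dg i + d = e j + s ∧ r i = t ∧ l i = v j
        · rw [dif_pos h, dif_pos h, map_smul, Finsupp.smul_apply, Module.Basis.repr_self,
            Finsupp.single_eq_same, smul_eq_mul, mul_one]
        · rw [dif_neg h, dif_neg h, map_zero, Finsupp.zero_apply]
      · intro i' _ hi'
        by_cases h : dg i' + d = e j + s ∧ r i' = t ∧ l i' = v j
        · rw [dif_pos h, map_smul, Finsupp.smul_apply, Module.Basis.repr_self,
            Finsupp.single_apply, if_neg hi', smul_zero]
        · rw [dif_neg h, map_zero, Finsupp.zero_apply]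
      · intro h
        exact absurd (Finset.mem_univ _) h
    refine ⟨⟨x, ?_⟩, ?_⟩
    · intro j i h
      rw [hx] at h
      by_contra h'
      rw [dif_neg h'] at h
      exact h rfl
    · funext p
      change b.repr (x p.1.1) p.1.2 = y p
      rw [hx, dif_pos p.2]

theorem finrank_KD (b : Module.Basis ι k A) (dg : ι → ℕ) (l r : ι → N) (e : κ → ℕ)
    (v : κ → N) (s d : ℕ) (t : N) : Module.finrank k (KD b dg l r e v s d t) =
      Fintype.card {p : κ × ι // dg p.2 + d = e p.1 + s ∧ r p.2 = t ∧ l p.2 = v p.1} := by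
  rw [(LinearEquiv.ofBijective _ (kcoord_bij b dg l r e v s d t)).finrank_eq,
    Module.finrank_fintype_fun_eq_card]

/-- the dimension formula -/
theorem finrank_HD (hB : IsPB b dg l r z) (hC : IsMB b dg l r c e v) (s d : ℕ) (t : N)
    (hext : Subsingleton
      (CategoryTheory.Abelian.Ext.{u} (ModuleCat.of A M) (ModuleCat.of A A) 1)) :
    Module.finrank k (HD b dg r c e s d t) + Module.finrank k (HDZ hB hC s d t) =
      Fintype.card {p : κ × ι // dg p.2 + d = e p.1 + s ∧ r p.2 = t ∧ l p.2 = v p.1} := by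
  have hfA : Module.Finite k A := Module.Finite.of_basis b
  have h1 := LinearMap.finrank_range_add_finrank_ker (K := k) (V := KD b dg l r e v s d t)
    (V₂ := HDZ hB hC s d t) (bet hB hC s d t)
  rw [finrank_KD, bet_ker, LinearMap.range_eq_top.mpr (bet_surj hB hC s d t hext), finrank_top,
    LinearMap.finrank_range_of_inj (alp_inj hB hC s d t)] at h1
  rw [← h1, add_comm]

end Pool.Agent.Helper16.TN
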