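import Pool.Agent.Helper16.TN.W

/-!
# The key theorem for algebras with a homogeneous Peirce basis
-/

set_option autoImplicit false
set_option linter.unusedVariables false
set_option linter.unusedSectionVars false

universe u

namespace Pool.Agent.Helper16.TN

open Polynomial

section Det

variable {N : Type} [Fintype N] [DecidableEq N]

theorem natDegree_det_le' (P : Matrix N N ℤ[X]) (s : ℕ) (h : ∀ i j, (P i j).natDegree ≤ s) :
    P.det.natDegree ≤ Fintype.card N * s := by
  rw [Matrix.det_apply']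
  refine Polynomial.natDegree_sum_le_of_forall_le _ _ (fun σ _ => ?_)
  refine Polynomial.natDegree_mul_le.trans ?_
  rw [Polynomial.natDegree_intCast, zero_add]
  refine (Polynomial.natDegree_prod_le _ _).trans ?_
  refine (Finset.sum_le_card_nsmul _ _ s (fun i _ => h _ _)).trans ?_
  rw [Finset.card_univ, smul_eq_mul]

theorem coeff_det_eq (P : Matrix N N ℤ[X]) (s : ℕ) (h : ∀ i j, (P i j).natDegree ≤ s) :
    P.det.coeff (Fintype.card N * s) = (Matrix.of fun i j => (P i j).coeff s).det := by
  rw [Matrix.det_apply', Matrix.det_apply', Polynomial.finsetSum_coeff]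
  refine Finset.sum_congr rfl (fun σ _ => ?_)
  rw [← Polynomial.C_eq_intCast, Polynomial.coeff_C_mul]
  congr 1
  have h1 := Polynomial.coeff_prod_of_natDegree_le (Finset.univ : Finset N)
    (fun i => P (σ i) i) s (fun i _ => h _ _)
  rw [Finset.card_univ] at h1
  rw [h1]
  rfl

theorem natDegree_adj_le (P : Matrix N N ℤ[X]) (s : ℕ) (h : ∀ i j, (P i j).natDegree ≤ s)
    (i j : N) : (P.adjugate i j).natDegree ≤ Fintype.card N * s := by
  rw [Matrix.adjugate_apply]
  apply natDegree_det_le'
  intro p q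
  rw [Matrix.updateRow_apply]
  by_cases hp : p = j
  · rw [if_pos hp]
    by_cases hq : q = i
    · subst hq
      rw [Pi.single_eq_same, natDegree_one]
      exact Nat.zero_le _
    · rw [Pi.single_eq_of_ne hq, natDegree_zero]
      exact Nat.zero_le _
  · rw [if_neg hp]
    exact h _ _

end Det

variable {k A : Type u} [Field k] [Ring A] [Algebra k A]
variable {ι : Type} [Fintype ι] [DecidableEq ι]
variable {N : Type} [Fintype N] [DecidableEq N]
variable {M : Type u} [AddCommGroup M] [Module k M] [Module A M] [IsScalarTower k A M]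
variable {κ : Type} [Fintype κ] [DecidableEq κ]
variable {b : Module.Basis ι k A} {dg : ι → ℕ} {l r : ι → N} {z : N → ι}

theorem natDegree_Cm (s : ℕ) (hs : ∀ i, dg i ≤ s) (a c : N) :
    (Cm dg l r a c).natDegree ≤ s := by
  rw [Cm, Matrix.of_apply]
  refine Polynomial.natDegree_sum_le_of_forall_le _ _ (fun i _ => ?_)
  by_cases h : l i = a ∧ r i = c
  · rw [if_pos h, natDegree_X_pow]
    exact hs i
  · rw [if_neg h, natDegree_zero]
    exact Nat.zero_le _

theorem natDegree_Cs (s : ℕ) (a c : N) :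
    (Cs dg l r s a c).natDegree ≤ s := by
  rw [Cs, Matrix.of_apply]
  refine Polynomial.natDegree_sum_le_of_forall_le _ _ (fun i _ => ?_)
  by_cases h : l i = a ∧ r i = c
  · rw [if_pos h, natDegree_X_pow]
    exact Nat.sub_le _ _
  · rw [if_neg h, natDegree_zero]
    exact Nat.zero_le _

theorem natDegree_HS (s : ℕ) (e : κ → ℕ) (v : κ → N) (he : ∀ j, e j ≤ s) (a : N) :
    (HS e v a).natDegree ≤ s := by
  rw [HS]
  refine Polynomial.natDegree_sum_le_of_forall_le _ _ (fun i _ => ?_)
  by_cases h : v i = a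
  · rw [if_pos h, natDegree_X_pow]
    exact he i
  · rw [if_neg h, natDegree_zero]
    exact Nat.zero_le _

theorem natDegree_Sv (s : ℕ) (hs : ∀ i, dg i ≤ s) (e : κ → ℕ) (v : κ → N) (he : ∀ j, e j ≤ s)
    (t : N) : (Sv dg l r s e v t).natDegree ≤ (Fintype.card N + 2) * s := by
  rw [Sv, Matrix.vecMul, dotProduct]
  refine Polynomial.natDegree_sum_le_of_forall_le _ _ (fun a _ => ?_)
  refine Polynomial.natDegree_mul_le.trans ?_
  have h1 := natDegree_HS s e v he a
  have h2 : (((Cm dg l r).transpose.adjugate * Cs dg l r s) a t).natDegree ≤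
      Fintype.card N * s + s := by
    rw [Matrix.mul_apply]
    refine Polynomial.natDegree_sum_le_of_forall_le _ _ (fun c _ => ?_)
    refine Polynomial.natDegree_mul_le.trans ?_
    exact add_le_add (natDegree_adj_le _ s (fun i j => natDegree_Cm s hs j i) a c)
      (natDegree_Cs s c t)
  have h3 : (Fintype.card N + 2) * s = Fintype.card N * s + s + s := by ring
  rw [h3]
  omega

variable {c : Module.Basis κ k M} {e : κ → ℕ} {v : κ → N}

theorem Er_eq_zero (hB : IsPB b dg l r z) (s : ℕ) (hs : ∀ i, dg i ≤ s)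
    (hC : IsMB b dg l r c e v) (he : ∀ j, e j ≤ s)
    (hext : ∀ i, 1 ≤ i → i ≤ (Fintype.card N + 2) * s + 1 → Subsingleton
      (CategoryTheory.Abelian.Ext.{u} (ModuleCat.of A M) (ModuleCat.of A A) i)) (t : N) :
    Er b dg l r c e v s t = 0 := by
  have h1 := Er_dvd hB s hs t ((Fintype.card N + 2) * s + 1) 0 c e v hC
    (fun j => Nat.zero_le _) hext
  rw [zero_add, PowerSeries.X_pow_dvd_iff] at h1
  ext d
  rw [map_zero]
  by_cases hd : d < (Fintype.card N + 2) * s + 1
  · exact h1 d hd
  · have h3 : (Fintype.card N + 2) * s = Fintype.card N * s + s + s := by ring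
    rw [Er, map_sub, PowerSeries.coeff_mul, Polynomial.coeff_coe,
      Polynomial.coeff_eq_zero_of_natDegree_lt
        (lt_of_le_of_lt (natDegree_Sv s hs e v he t) (by omega)), sub_zero]
    refine Finset.sum_eq_zero (fun p hp => ?_)
    rw [Finset.HasAntidiagonal.mem_antidiagonal] at hp
    by_cases h4 : Fintype.card N * s < p.1
    · rw [Polynomial.coeff_coe, Polynomial.coeff_eq_zero_of_natDegree_lt
        (lt_of_le_of_lt (natDegree_det_le' _ s (fun i j => natDegree_Cm s hs i j)) h4), zero_mul]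
    · rw [GS_coeff_zero, mul_zero]
      intro j i
      have := he j
      omega

/-- the dimension of the space of homogeneous homomorphisms of degree `s - d` from
`Hom_k (e_a A, k)` to `A e_t` -/
noncomputable def gd (hB : IsPB b dg l r z) (s : ℕ) (a t : N) (d : ℕ) : ℕ :=
  Module.finrank k (HD (M := WA k (b (z a))) b dg r (wb hB a)
    (fun i : {i : ι // l i = a} => s - dg i.1) s d t)

theorem gd_zero (hB : IsPB b dg l r z) (s : ℕ) (a t : N) (d : ℕ) (hd : 2 * s < d) :
    gd hB s a t d = 0 := by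
  rw [gd, HD_eq_bot, finrank_bot]
  intro j i
  omega

/-- the matrix of the generating functions of the dimensions -/
noncomputable def Gm (hB : IsPB b dg l r z) (s : ℕ) : Matrix N N ℤ[X] :=
  Matrix.of fun a t => ∑ d ∈ Finset.range (2 * s + 1), monomial d (gd hB s a t d : ℤ)

theorem coeff_Gm (hB : IsPB b dg l r z) (s : ℕ) (a t : N) (d : ℕ) :
    (Gm hB s a t).coeff d = (gd hB s a t d : ℤ) := by
  rw [Gm, Matrix.of_apply, Polynomial.finsetSum_coeff]
  simp only [Polynomial.coeff_monomial]
  rw [Finset.sum_ite_eq']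
  by_cases h : d ∈ Finset.range (2 * s + 1)
  · rw [if_pos h]
  · rw [if_neg h, gd_zero, Nat.cast_zero]
    rw [Finset.mem_range] at h
    omega

theorem key (hB : IsPB b dg l r z) (s : ℕ) (hs : ∀ i, dg i ≤ s)
    (hext : ∀ a, ∀ i, 1 ≤ i → i ≤ (Fintype.card N + 2) * s + 1 → Subsingleton
      (CategoryTheory.Abelian.Ext.{u} (ModuleCat.of A (WA k (b (z a)))) (ModuleCat.of A A) i)) :
    (Cm dg l r).det • Gm hB s = Cs dg l r s * (Cm dg l r).transpose.adjugate * Cs dg l r s := by
  ext a t : 2
  have h1 := Er_eq_zero (M := WA k (b (z a))) hB s hs (wb_isMB hB s hs a)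
    (fun j => Nat.sub_le _ _) (hext a) t
  rw [Er, sub_eq_zero] at h1
  have h2 : GS (M := WA k (b (z a))) b dg r (wb hB a)
      (fun i : {i : ι // l i = a} => s - dg i.1) s t = (Gm hB s a t : PowerSeries ℤ) := by
    ext d
    rw [GS, PowerSeries.coeff_mk, Polynomial.coeff_coe, coeff_Gm]
    rfl
  rw [h2, ← Polynomial.coe_mul] at h1
  have h3 := Polynomial.coe_injective ℤ h1
  rw [Matrix.smul_apply, smul_eq_mul, h3, Sv, HS_W, Matrix.mul_assoc,
    Matrix.mul_apply_eq_vecMul]

theorem coeff_Cs_s (hB : IsPB b dg l r z) (s : ℕ) (hs : ∀ i, dg i ≤ s) (a c : N) :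
    (Cs dg l r s a c).coeff s = (1 : Matrix N N ℤ) a c := by
  rw [Cs, Matrix.of_apply, Polynomial.finsetSum_coeff, Finset.sum_eq_single (z c)]
  · rw [hB.zl, hB.zr, hB.zdg, Nat.sub_zero]
    by_cases h : c = a
    · rw [if_pos ⟨h, rfl⟩, coeff_X_pow, if_pos rfl, h, Matrix.one_apply_eq]
    · rw [if_neg (fun h' => h h'.1), coeff_zero, Matrix.one_apply_ne (fun h' => h h'.symm)]
  · intro i _ hi
    by_cases h : l i = a ∧ r i = c
    · rw [if_pos h, coeff_X_pow, if_neg]
      intro h1
      have h2 := hs i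
      apply hi
      rw [← h.2]
      exact hB.pos i (by omega)
    · rw [if_neg h, coeff_zero]
  · intro h
    exact absurd (Finset.mem_univ _) h

theorem Cs_det_monic (hB : IsPB b dg l r z) (s : ℕ) (hs : ∀ i, dg i ≤ s) :
    (Cs dg l r s).det.Monic := by
  apply Polynomial.monic_of_natDegree_le_of_coeff_eq_one (Fintype.card N * s)
    (natDegree_det_le' _ s (fun i j => natDegree_Cs s i j))
  rw [coeff_det_eq _ s (fun i j => natDegree_Cs s i j)]
  have h1 : (Matrix.of fun i j => (Cs dg l r s i j).coeff s) = (1 : Matrix N N ℤ) := by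
    ext i j
    exact coeff_Cs_s hB s hs i j
  rw [h1, Matrix.det_one]

theorem Cm_det_eval (hB : IsPB b dg l r z) : (Cm dg l r).det.coeff 0 = 1 := by
  have h1 : (Cm dg l r).map (Polynomial.constantCoeff : ℤ[X] →+* ℤ) = 1 := by
    ext a c
    rw [Matrix.map_apply, Polynomial.constantCoeff_apply, Cm, Matrix.of_apply,
      Polynomial.finsetSum_coeff, Finset.sum_eq_single (z c)]
    · rw [hB.zl, hB.zr, hB.zdg, pow_zero]
      by_cases h : c = a
      · rw [if_pos ⟨h, rfl⟩, coeff_one_zero, h, Matrix.one_apply_eq]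
      · rw [if_neg (fun h' => h h'.1), coeff_zero, Matrix.one_apply_ne (fun h' => h h'.symm)]
    · intro i _ hi
      by_cases h : l i = a ∧ r i = c
      · rw [if_pos h, coeff_X_pow, if_neg]
        intro h1
        apply hi
        rw [← h.2]
        exact hB.pos i h1.symm
      · rw [if_neg h, coeff_zero]
    · intro h
      exact absurd (Finset.mem_univ _) h
  rw [← Polynomial.constantCoeff_apply, RingHom.map_det, RingHom.mapMatrix_apply, h1,
    Matrix.det_one]

theorem Cm_det_ne (hB : IsPB b dg l r z) : (Cm dg l r).det ≠ 0 := by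
  intro h
  have := Cm_det_eval hB
  rw [h, coeff_zero] at this
  exact zero_ne_one this

/-- `det C · det G = (det C*)^2` -/
theorem det_key (hB : IsPB b dg l r z) (s : ℕ) (hs : ∀ i, dg i ≤ s) (G : Matrix N N ℤ[X])
    (h : (Cm dg l r).det • G = Cs dg l r s * (Cm dg l r).transpose.adjugate * Cs dg l r s) :
    (Cm dg l r).det * G.det = (Cs dg l r s).det ^ 2 := by
  have h1 := congrArg Matrix.det h
  rw [Matrix.det_smul, Matrix.det_mul, Matrix.det_mul, Matrix.det_adjugate,
    Matrix.det_transpose] at h1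
  by_cases hN : Fintype.card N = 0
  · haveI : IsEmpty N := Fintype.card_eq_zero_iff.mp hN
    rw [Matrix.det_isEmpty, Matrix.det_isEmpty, Matrix.det_isEmpty]
    ring
  · obtain ⟨m, hm⟩ := Nat.exists_eq_succ_of_ne_zero hN
    rw [hm, Nat.succ_eq_add_one, Nat.add_sub_cancel] at h1
    apply mul_left_cancel₀ (pow_ne_zero m (Cm_det_ne hB))
    linear_combination h1

theorem isUnit_lc (hB : IsPB b dg l r z) (s : ℕ) (hs : ∀ i, dg i ≤ s) (G : Matrix N N ℤ[X])
    (h : (Cm dg l r).det • G = Cs dg l r s * (Cm dg l r).transpose.adjugate * Cs dg l r s) :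
    IsUnit (Cm dg l r).det.leadingCoeff := by
  have h1 := congrArg Polynomial.leadingCoeff (det_key hB s hs G h)
  rw [Polynomial.leadingCoeff_mul, Polynomial.leadingCoeff_pow,
    (Cs_det_monic hB s hs).leadingCoeff, one_pow] at h1
  exact IsUnit.of_mul_eq_one _ h1

end Pool.Agent.Helper16.TN
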