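import Pool.Agent.Helper16.TN.Cons

/-!
# The first Tachikawa conjecture and the graded Cartan matrix: main theorem
-/

set_option autoImplicit false
set_option linter.unusedVariables false
set_option linter.unusedSectionVars false

universe u

namespace Pool.Agent.Helper16.TN

open Polynomial

variable {k A : Type u} [Field k] [Ring A] [Algebra k A] [Module.Finite k A]
variable {N : Type} [Fintype N] [DecidableEq N]
variable {𝒜 : ℕ → Submodule k A} [GradedAlgebra 𝒜] {e : N → A} {s : ℕ}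

/-- the vanishing hypothesis for the modules `Hom_k (e_a A, k)` -/
theorem hext_W (h : IsEl 𝒜 e s) (B : ℕ)
    (hv : ∀ I : ModuleCat.{u} A, Module.Finite A I → Module.Injective A I →
      ∀ i : ℕ, 0 < i → i ≤ B →
        Subsingleton (CategoryTheory.Abelian.Ext.{u} I (ModuleCat.of A A) i)) (a : N) (i : ℕ)
    (hi : 1 ≤ i) (hi' : i ≤ B) : Subsingleton
      (CategoryTheory.Abelian.Ext.{u} (ModuleCat.of A (WA k (pbas h (zix h a))))
        (ModuleCat.of A A) i) := by
  have h1 : Module.Finite k (WA k (pbas h (zix h a))) := Module.Finite.of_basis (wb (isPB h) a)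
  refine hv _ (Module.Finite.of_restrictScalars_finite k A (WA k (pbas h (zix h a))))
    (WA_inj _ ?_) i hi hi'
  rw [pbas_zix, h.e_mul, if_pos rfl]

theorem main_N (h : IsEl 𝒜 e s)
    (hv : ∀ I : ModuleCat.{u} A, Module.Finite A I → Module.Injective A I →
      ∀ i : ℕ, 0 < i → i ≤ (Fintype.card N + 2) * s + 1 →
        Subsingleton (CategoryTheory.Abelian.Ext.{u} I (ModuleCat.of A A) i))
    (C Cst : Matrix N N ℤ[X])
    (hC : ∀ a c, C a c = ∑ n ∈ Finset.range (s + 1),
      (Module.finrank k (Pc 𝒜 e n a c) : ℤ[X]) * X ^ n)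
    (hCst : ∀ a c, Cst a c = ∑ n ∈ Finset.range (s + 1),
      (Module.finrank k (Pc 𝒜 e n a c) : ℤ[X]) * X ^ (s - n)) :
    (C.det • Gm (isPB h) s = Cst * C.transpose.adjugate * Cst) ∧ IsUnit C.det.leadingCoeff := by
  have h1 : C = Cm (fun j : Jx 𝒜 e s => (j.1.1 : ℕ)) (fun j : Jx 𝒜 e s => j.1.2.1)
      (fun j : Jx 𝒜 e s => j.1.2.2) := by
    refine Matrix.ext (fun a c => ?_)
    rw [hC, Cm, Matrix.of_apply]
    exact (sum_block (𝒜 := 𝒜) (e := e) (s := s) a c (fun n => X ^ n)).symm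
  have h2 : Cst = Cs (fun j : Jx 𝒜 e s => (j.1.1 : ℕ)) (fun j : Jx 𝒜 e s => j.1.2.1)
      (fun j : Jx 𝒜 e s => j.1.2.2) s := by
    refine Matrix.ext (fun a c => ?_)
    rw [hCst, Cs, Matrix.of_apply]
    exact (sum_block (𝒜 := 𝒜) (e := e) (s := s) a c (fun n => X ^ (s - n))).symm
  have h3 := key (isPB h) s dg_le (hext_W h _ hv)
  rw [h1, h2]
  exact ⟨h3, isUnit_lc (isPB h) s dg_le _ h3⟩

end Pool.Agent.Helper16.TN
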