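import Pool.Agent.Helper16.TN.Hom

/-!
# Hilbert series and the rationality identity
-/

set_option autoImplicit false
set_option linter.unusedVariables false
set_option linter.unusedSectionVars false

universe u

namespace Pool.Agent.Helper16.TN

open Polynomial

variable {k A : Type u} [Field k] [Ring A] [Algebra k A]
variable {ι : Type} [Fintype ι] [DecidableEq ι]
variable {N : Type} [Fintype N] [DecidableEq N]
variable {M : Type u} [AddCommGroup M] [Module k M] [Module A M] [IsScalarTower k A M]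
variable {κ : Type} [Fintype κ] [DecidableEq κ]

/-- the graded Cartan matrix -/
noncomputable def Cm (dg : ι → ℕ) (l r : ι → N) : Matrix N N ℤ[X] :=
  Matrix.of fun a c => ∑ i, if l i = a ∧ r i = c then X ^ dg i else 0

/-- the reversed graded Cartan matrix -/
noncomputable def Cs (dg : ι → ℕ) (l r : ι → N) (s : ℕ) : Matrix N N ℤ[X] :=
  Matrix.of fun a c => ∑ i, if l i = a ∧ r i = c then X ^ (s - dg i) else 0

/-- the graded dimension vector -/
noncomputable def HS (e : κ → ℕ) (v : κ → N) (a : N) : ℤ[X] :=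
  ∑ j, if v j = a then X ^ e j else 0

theorem coeff_HS_Cs (dg : ι → ℕ) (l r : ι → N) (s : ℕ) (hs : ∀ i, dg i ≤ s) (e : κ → ℕ)
    (v : κ → N) (t : N) (d : ℕ) :
    (Matrix.vecMul (HS e v) (Cs dg l r s) t).coeff d =
      (Fintype.card {p : κ × ι // dg p.2 + d = e p.1 + s ∧ r p.2 = t ∧ l p.2 = v p.1} : ℤ) := by
  have h1 : Matrix.vecMul (HS e v) (Cs dg l r s) t =
      ∑ j, ∑ i, if l i = v j ∧ r i = t then (X : ℤ[X]) ^ (e j + (s - dg i)) else 0 := by
    rw [Matrix.vecMul, dotProduct]
    simp only [HS, Cs, Matrix.of_apply]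
    have h2 : ∀ a : N, (∑ j, if v j = a then (X : ℤ[X]) ^ e j else 0) *
        (∑ i, if l i = a ∧ r i = t then X ^ (s - dg i) else 0) =
        ∑ j, ∑ i, if v j = a then
          (if l i = v j ∧ r i = t then (X : ℤ[X]) ^ (e j + (s - dg i)) else 0) else 0 := by
      intro a
      rw [Finset.sum_mul_sum]
      refine Finset.sum_congr rfl (fun j _ => Finset.sum_congr rfl (fun i _ => ?_))
      by_cases h3 : v j = a
      · rw [if_pos h3, if_pos h3, h3]
        by_cases h4 : l i = a ∧ r i = t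
        · rw [if_pos h4, if_pos h4, pow_add]
        · rw [if_neg h4, if_neg h4, mul_zero]
      · rw [if_neg h3, if_neg h3, zero_mul]
    rw [Finset.sum_congr rfl (fun a _ => h2 a), Finset.sum_comm]
    refine Finset.sum_congr rfl (fun j _ => ?_)
    rw [Finset.sum_comm]
    refine Finset.sum_congr rfl (fun i _ => ?_)
    rw [Finset.sum_ite_eq, if_pos (Finset.mem_univ _)]
  rw [h1, Fintype.card_subtype, Finset.card_filter, Nat.cast_sum, Fintype.sum_prod_type,
    finsetSum_coeff]
  refine Finset.sum_congr rfl (fun j _ => ?_)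
  rw [finsetSum_coeff]
  refine Finset.sum_congr rfl (fun i _ => ?_)
  dsimp only
  have h5 := hs i
  by_cases h3 : l i = v j ∧ r i = t
  · rw [if_pos h3, coeff_X_pow]
    by_cases h4 : d = e j + (s - dg i)
    · rw [if_pos h4, if_pos ⟨by omega, h3.2, h3.1⟩, Nat.cast_one]
    · rw [if_neg h4, if_neg (fun h => h4 (by omega)), Nat.cast_zero]
  · rw [if_neg h3, coeff_zero, if_neg (fun h => h3 ⟨h.2.2, h.2.1⟩), Nat.cast_zero]

variable {b : Module.Basis ι k A} {dg : ι → ℕ} {l r : ι → N} {z : N → ι}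
variable {c : Module.Basis κ k M} {e : κ → ℕ} {v : κ → N}

theorem HS_add (hB : IsPB b dg l r z) (e : κ → ℕ) (v : κ → N) (a : N) :
    HS e v a + HS (fun p : ZI dg r v => dg p.1.1 + e p.1.2) (fun p : ZI dg r v => l p.1.1) a =
      Matrix.vecMul (HS e v) (Cm dg l r).transpose a := by
  rw [Matrix.vecMul_transpose, Matrix.mulVec, dotProduct]
  have h2 : ∀ a' : N, (Cm dg l r) a a' * HS e v a' =
      ∑ i, ∑ j, if v j = a' then
        (if l i = a ∧ r i = v j then (X : ℤ[X]) ^ (dg i + e j) else 0) else 0 := by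
    intro a'
    simp only [HS, Cm, Matrix.of_apply]
    rw [Finset.sum_mul_sum]
    refine Finset.sum_congr rfl (fun i _ => Finset.sum_congr rfl (fun j _ => ?_))
    by_cases h3 : v j = a'
    · rw [if_pos h3, if_pos h3, h3]
      by_cases h4 : l i = a ∧ r i = a'
      · rw [if_pos h4, if_pos h4, pow_add]
      · rw [if_neg h4, if_neg h4, zero_mul]
    · rw [if_neg h3, if_neg h3, mul_zero]
  have h3 : ∑ a', (Cm dg l r) a a' * HS e v a' =
      ∑ i, ∑ j, if l i = a ∧ r i = v j then (X : ℤ[X]) ^ (dg i + e j) else 0 := by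
    rw [Finset.sum_congr rfl (fun a' _ => h2 a'), Finset.sum_comm]
    refine Finset.sum_congr rfl (fun i _ => ?_)
    rw [Finset.sum_comm]
    refine Finset.sum_congr rfl (fun j _ => ?_)
    rw [Finset.sum_ite_eq, if_pos (Finset.mem_univ _)]
  rw [h3]
  have h4 : ∀ i j, (if l i = a ∧ r i = v j then (X : ℤ[X]) ^ (dg i + e j) else 0) =
      (if i = z (v j) then (if v j = a then X ^ e j else 0) else 0) +
      (if 1 ≤ dg i ∧ r i = v j then (if l i = a then X ^ (dg i + e j) else 0) else 0) := by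
    intro i j
    by_cases h5 : i = z (v j)
    · subst h5
      rw [if_pos rfl, hB.zl, hB.zr, hB.zdg, if_neg (by omega : ¬ (1 ≤ 0 ∧ v j = v j)), add_zero,
        zero_add]
      by_cases h6 : v j = a
      · rw [if_pos ⟨h6, rfl⟩, if_pos h6]
      · rw [if_neg (fun h => h6 h.1), if_neg h6]
    · rw [if_neg h5, zero_add]
      by_cases h6 : r i = v j
      · have h7 : 1 ≤ dg i := by
          by_contra h8
          apply h5
          rw [← h6]
          exact hB.pos i (by omega)
        rw [if_pos (show 1 ≤ dg i ∧ r i = v j from ⟨h7, h6⟩)]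
        by_cases h8 : l i = a
        · rw [if_pos ⟨h8, h6⟩, if_pos h8]
        · rw [if_neg (fun h => h8 h.1), if_neg h8]
      · rw [if_neg (fun h => h6 h.2), if_neg (fun h => h6 h.2)]
  have h5 : ∑ i, ∑ j, (if l i = a ∧ r i = v j then (X : ℤ[X]) ^ (dg i + e j) else 0) =
      (∑ i, ∑ j, (if i = z (v j) then (if v j = a then (X : ℤ[X]) ^ e j else 0) else 0)) +
      ∑ i, ∑ j, (if 1 ≤ dg i ∧ r i = v j then
        (if l i = a then (X : ℤ[X]) ^ (dg i + e j) else 0) else 0) := by
    rw [← Finset.sum_add_distrib]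
    refine Finset.sum_congr rfl (fun i _ => ?_)
    rw [← Finset.sum_add_distrib]
    exact Finset.sum_congr rfl (fun j _ => h4 i j)
  rw [h5]
  congr 1
  · rw [Finset.sum_comm, HS]
    refine Finset.sum_congr rfl (fun j _ => ?_)
    rw [Finset.sum_ite_eq', if_pos (Finset.mem_univ _)]
  · rw [HS, ← Fintype.sum_prod_type']
    have h6 := Finset.sum_subtype (F := (inferInstance : Fintype (ZI dg r v)))
      (Finset.univ.filter (fun p : ι × κ => 1 ≤ dg p.1 ∧ r p.1 = v p.2))
      (p := fun p : ι × κ => 1 ≤ dg p.1 ∧ r p.1 = v p.2)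
      (fun x => by rw [Finset.mem_filter]; exact ⟨fun h => h.2, fun h => ⟨Finset.mem_univ _, h⟩⟩)
      (fun p : ι × κ => if l p.1 = a then (X : ℤ[X]) ^ (dg p.1 + e p.2) else 0)
    rw [Finset.sum_filter] at h6
    exact h6.symm

/-- the generating function of the dimensions of the spaces of homogeneous homomorphisms -/
noncomputable def GS (b : Module.Basis ι k A) (dg : ι → ℕ) (r : ι → N) (c : Module.Basis κ k M)
    (e : κ → ℕ) (s : ℕ) (t : N) : PowerSeries ℤ :=
  PowerSeries.mk fun d => (Module.finrank k (HD b dg r c e s d t) : ℤ)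

/-- the expected numerator -/
noncomputable def Sv (dg : ι → ℕ) (l r : ι → N) (s : ℕ) (e : κ → ℕ) (v : κ → N) (t : N) : ℤ[X] :=
  Matrix.vecMul (HS e v) ((Cm dg l r).transpose.adjugate * Cs dg l r s) t

/-- the error term -/
noncomputable def Er (b : Module.Basis ι k A) (dg : ι → ℕ) (l r : ι → N)
    (c : Module.Basis κ k M) (e : κ → ℕ) (v : κ → N) (s : ℕ) (t : N) : PowerSeries ℤ :=
  ((Cm dg l r).det : PowerSeries ℤ) * GS b dg r c e s t - (Sv dg l r s e v t : PowerSeries ℤ)

theorem Er_add (hB : IsPB b dg l r z) (hC : IsMB b dg l r c e v) (s : ℕ) (hs : ∀ i, dg i ≤ s)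
    (t : N) (hext : Subsingleton
      (CategoryTheory.Abelian.Ext.{u} (ModuleCat.of A M) (ModuleCat.of A A) 1)) :
    Er b dg l r c e v s t +
      Er (M := Zk b z c v) b dg l r (zb hB hC) (fun p : ZI dg r v => dg p.1.1 + e p.1.2)
        (fun p : ZI dg r v => l p.1.1) s t = 0 := by
  have h1 : GS b dg r c e s t +
      GS (M := Zk b z c v) b dg r (zb hB hC) (fun p : ZI dg r v => dg p.1.1 + e p.1.2) s t =
      ((Matrix.vecMul (HS e v) (Cs dg l r s) t : ℤ[X]) : PowerSeries ℤ) := by
    ext d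
    rw [map_add, Polynomial.coeff_coe, coeff_HS_Cs dg l r s hs, GS, GS, PowerSeries.coeff_mk,
      PowerSeries.coeff_mk, ← finrank_HD hB hC s d t hext, Nat.cast_add]
  have h2 : Sv dg l r s e v t + Sv dg l r s (fun p : ZI dg r v => dg p.1.1 + e p.1.2)
      (fun p : ZI dg r v => l p.1.1) t =
      (Cm dg l r).det * Matrix.vecMul (HS e v) (Cs dg l r s) t := by
    have h3 : HS e v + HS (fun p : ZI dg r v => dg p.1.1 + e p.1.2)
        (fun p : ZI dg r v => l p.1.1) = Matrix.vecMul (HS e v) (Cm dg l r).transpose := by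
      funext a
      exact HS_add hB e v a
    have h4 : Matrix.vecMul (HS e v + HS (fun p : ZI dg r v => dg p.1.1 + e p.1.2)
        (fun p : ZI dg r v => l p.1.1)) ((Cm dg l r).transpose.adjugate * Cs dg l r s) =
        (Cm dg l r).det • Matrix.vecMul (HS e v) (Cs dg l r s) := by
      rw [h3, Matrix.vecMul_vecMul, ← Matrix.mul_assoc, Matrix.mul_adjugate, Matrix.smul_mul,
        Matrix.one_mul, Matrix.det_transpose, Matrix.vecMul_smul]
    have h5 := congrFun h4 t
    rw [Matrix.add_vecMul] at h5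
    exact h5
  rw [Er, Er]
  have h6 : ∀ a x y p q : PowerSeries ℤ, (a * x - p) + (a * y - q) = a * (x + y) - (p + q) := by
    intro a x y p q
    ring
  rw [h6, h1, ← Polynomial.coe_add, h2, Polynomial.coe_mul, sub_self]

theorem HD_eq_bot (s d : ℕ) (t : N) (h : ∀ j i, dg i + d ≠ e j + s) :
    HD b dg r c e s d t = ⊥ := by
  rw [eq_bot_iff]
  intro f hf
  rw [Submodule.mem_bot]
  ext m
  rw [← c.sum_repr m, map_sum, LinearMap.zero_apply]
  refine Finset.sum_eq_zero (fun j _ => ?_)
  have h1 : f (c j) = 0 := by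
    apply b.repr.injective
    ext i
    rw [map_zero, Finsupp.zero_apply]
    by_contra hi
    exact h j i (hf j i hi).1
  rw [← algebraMap_smul A, map_smul, h1, smul_zero]

theorem GS_coeff_zero (s d : ℕ) (t : N) (h : ∀ j i, dg i + d ≠ e j + s) :
    PowerSeries.coeff d (GS b dg r c e s t) = 0 := by
  rw [GS, PowerSeries.coeff_mk, HD_eq_bot s d t h, finrank_bot, Nat.cast_zero]

theorem X_pow_dvd_HS (n : ℕ) (hn : ∀ j, n ≤ e j) (a : N) : X ^ n ∣ HS e v a := by
  rw [HS]
  refine Finset.dvd_sum (fun j _ => ?_)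
  by_cases h : v j = a
  · rw [if_pos h]
    exact pow_dvd_pow _ (hn j)
  · rw [if_neg h]
    exact dvd_zero _

theorem Er_dvd (hB : IsPB b dg l r z) (s : ℕ) (hs : ∀ i, dg i ≤ s) (t : N)
    (n : ℕ) : ∀ (n0 : ℕ) {M : Type u} [AddCommGroup M] [Module k M] [Module A M]
      [IsScalarTower k A M] {κ : Type} [Fintype κ] [DecidableEq κ] (c : Module.Basis κ k M)
      (e : κ → ℕ) (v : κ → N) (hC : IsMB b dg l r c e v) (hn0 : ∀ j, n0 ≤ e j)
      (hext : ∀ i, 1 ≤ i → i ≤ n → Subsingleton
        (CategoryTheory.Abelian.Ext.{u} (ModuleCat.of A M) (ModuleCat.of A A) i)),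
      (PowerSeries.X : PowerSeries ℤ) ^ (n0 + n) ∣ Er b dg l r c e v s t := by
  induction n with
  | zero =>
    intro n0 M _ _ _ _ κ _ _ c e v hC hn0 hext
    rw [add_zero, Er]
    apply dvd_sub
    · apply dvd_mul_of_dvd_right
      rw [PowerSeries.X_pow_dvd_iff]
      intro d hd
      apply GS_coeff_zero
      intro j i
      have := hs i
      have := hn0 j
      omega
    · have h1 : X ^ n0 ∣ Sv dg l r s e v t := by
        rw [Sv, Matrix.vecMul, dotProduct]
        exact Finset.dvd_sum (fun a _ => dvd_mul_of_dvd_left (X_pow_dvd_HS n0 hn0 a) _)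
      obtain ⟨q, hq⟩ := h1
      refine ⟨(q : PowerSeries ℤ), ?_⟩
      rw [hq, Polynomial.coe_mul, Polynomial.coe_pow, Polynomial.coe_X]
  | succ n ih =>
    intro n0 M _ _ _ _ κ _ _ c e v hC hn0 hext
    have h1 := Er_add hB hC s hs t (hext 1 le_rfl (by omega))
    have h2 := ih (n0 + 1) (M := Zk b z c v) (zb hB hC)
      (fun p : ZI dg r v => dg p.1.1 + e p.1.2) (fun p : ZI dg r v => l p.1.1)
      (zb_isMB hB hC) (fun p => by have := hn0 p.1.2; have := p.2.1; omega)
      (fun i hi hi' => les_left (R := A) (X := Zk b z c v) (Y := PM b z v) (Z := M) (W := A)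
        (Zk b z c v).subtype (pr b z c v) Zk_exact (Submodule.injective_subtype _)
        (pr_surj hB hC) i (hext (i + 1) (by omega) (by omega))
        (ext_proj (PM_proj hB v) i hi))
    rw [eq_neg_of_add_eq_zero_left h1, dvd_neg]
    have h3 : n0 + (n + 1) = n0 + 1 + n := by omega
    rw [h3]
    exact h2

end Pool.Agent.Helper16.TN
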