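import Pool.Agent.Helper16.TN.Ser

/-!
# The indecomposable injective modules `Hom_k (e_a A, k)` and their homogeneous bases
-/

set_option autoImplicit false
set_option linter.unusedVariables false
set_option linter.unusedSectionVars false

universe u

namespace Pool.Agent.Helper16.TN

open Polynomial

variable {k A : Type u} [Field k] [Ring A] [Algebra k A]
variable {ι : Type} [Fintype ι] [DecidableEq ι]
variable {N : Type} [Fintype N] [DecidableEq N]

/-- the `k`-dual of `A`, with left action `(a f)(x) = f (x a)` -/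
def DA (k A : Type u) [Field k] [Ring A] [Algebra k A] : Type u := A →ₗ[k] k

noncomputable instance : AddCommGroup (DA k A) := inferInstanceAs (AddCommGroup (A →ₗ[k] k))
noncomputable instance : Module k (DA k A) := inferInstanceAs (Module k (A →ₗ[k] k))

/-- the underlying linear form -/
def DA.fn (f : DA k A) : A →ₗ[k] k := f

/-- the element of `DA` given by a linear form -/
def DA.mk (f : A →ₗ[k] k) : DA k A := f

@[simp] theorem DA.fn_mk (f : A →ₗ[k] k) : (DA.mk f).fn = f := rfl

theorem DA.fn_add (f g : DA k A) (x : A) : (f + g).fn x = f.fn x + g.fn x := rfl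
theorem DA.fn_zero (x : A) : (0 : DA k A).fn x = 0 := rfl
theorem DA.fn_ksmul (c : k) (f : DA k A) (x : A) : (c • f).fn x = c * f.fn x := rfl

theorem DA.ext' {f g : DA k A} (h : ∀ x, f.fn x = g.fn x) : f = g := LinearMap.ext h

noncomputable instance : SMul A (DA k A) :=
  ⟨fun a f => DA.mk (f.fn ∘ₗ LinearMap.mulRight k a)⟩

theorem DA.fn_smul (a : A) (f : DA k A) (x : A) : (a • f).fn x = f.fn (x * a) := rfl

noncomputable instance : Module A (DA k A) where
  one_smul f := DA.ext' fun x => by rw [DA.fn_smul, mul_one]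
  mul_smul a b f := DA.ext' fun x => by rw [DA.fn_smul, DA.fn_smul, DA.fn_smul, mul_assoc]
  smul_zero a := DA.ext' fun x => by rw [DA.fn_smul, DA.fn_zero, DA.fn_zero]
  smul_add a f g := DA.ext' fun x => by
    rw [DA.fn_smul, DA.fn_add, DA.fn_add, DA.fn_smul, DA.fn_smul]
  add_smul a b f := DA.ext' fun x => by
    rw [DA.fn_smul, DA.fn_add, DA.fn_smul, DA.fn_smul, mul_add, map_add]
  zero_smul f := DA.ext' fun x => by rw [DA.fn_smul, mul_zero, map_zero, DA.fn_zero]

instance : IsScalarTower k A (DA k A) :=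
  ⟨fun c a f => DA.ext' fun x => by
    rw [DA.fn_smul, DA.fn_ksmul, DA.fn_smul, mul_smul_comm, map_smul, smul_eq_mul]⟩

/-- the module `Hom_k (e A, k)` -/
def WA (k : Type u) {A : Type u} [Field k] [Ring A] [Algebra k A] (ε : A) :
    Submodule A (DA k A) where
  carrier := {f | ∀ x, f.fn (ε * x) = f.fn x}
  add_mem' := by
    intro f g hf hg x
    rw [DA.fn_add, DA.fn_add, hf, hg]
  zero_mem' := by
    intro x
    rw [DA.fn_zero, DA.fn_zero]
  smul_mem' := by
    intro a f hf x
    rw [DA.fn_smul, DA.fn_smul, mul_assoc, hf]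

theorem WA_inj (ε : A) (hε : ε * ε = ε) : Module.Injective A (WA k ε) := by
  refine ⟨fun X Y _ _ _ _ f hf g => ?_⟩
  letI mX : Module k X := Module.compHom X (algebraMap k A)
  letI mY : Module k Y := Module.compHom Y (algebraMap k A)
  haveI tX : IsScalarTower k A X := IsScalarTower.of_algebraMap_smul (fun r x => rfl)
  haveI tY : IsScalarTower k A Y := IsScalarTower.of_algebraMap_smul (fun r x => rfl)
  have hkX : ∀ (c : k) (x : X), c • x = algebraMap k A c • x := fun c x => rfl
  have hkY : ∀ (c : k) (y : Y), c • y = algebraMap k A c • y := fun c y => rfl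
  let fk : X →ₗ[k] Y := f.restrictScalars k
  have hfk : LinearMap.ker fk = ⊥ := LinearMap.ker_eq_bot.mpr hf
  obtain ⟨π, hπ⟩ := LinearMap.exists_leftInverse_of_injective fk hfk
  let w : X →ₗ[k] k :=
    { toFun := fun x => (g x).1.fn 1
      map_add' := fun x x' => by
        rw [map_add]
        rfl
      map_smul' := fun c x => by
        rw [hkX, map_smul, RingHom.id_apply]
        change (g x).1.fn (1 * algebraMap k A c) = c * _
        rw [one_mul, Algebra.algebraMap_eq_smul_one, map_smul, smul_eq_mul] }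
  let w' : Y →ₗ[k] k := w ∘ₗ π
  have hw : ∀ x, w' (f x) = (g x).1.fn 1 := by
    intro x
    have h1 : π (f x) = x := congrArg (fun φ => φ x) hπ
    change w (π (f x)) = _
    rw [h1]
    rfl
  let F : Y → DA k A := fun y => DA.mk
    { toFun := fun x => w' ((ε * x) • y)
      map_add' := fun x x' => by rw [mul_add, add_smul, map_add]
      map_smul' := fun c x => by
        rw [mul_smul_comm, smul_assoc, map_smul, RingHom.id_apply] }
  have hF : ∀ y x, (F y).fn x = w' ((ε * x) • y) := fun y x => rfl
  refine ⟨{ toFun := fun y => ⟨F y, fun x => ?_⟩, map_add' := fun y y' => ?_,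
            map_smul' := fun a y => ?_ }, fun x => ?_⟩
  · rw [hF, hF, ← mul_assoc, hε]
  · apply Subtype.ext
    apply DA.ext'
    intro x
    change (F (y + y')).fn x = (F y).fn x + (F y').fn x
    rw [hF, hF, hF, smul_add, map_add]
  · apply Subtype.ext
    apply DA.ext'
    intro x
    change (F (a • y)).fn x = (F y).fn (x * a)
    rw [hF, hF, ← mul_smul, mul_assoc]
  · apply Subtype.ext
    apply DA.ext'
    intro y
    change (F (f x)).fn y = (g x).1.fn y
    rw [hF, ← map_smul, hw, map_smul]
    change (g x).1.fn (1 * (ε * y)) = _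
    rw [one_mul]
    exact (g x).2 y

variable {b : Module.Basis ι k A} {dg : ι → ℕ} {l r : ι → N} {z : N → ι}

/-- coordinates on `Hom_k (e_a A, k)` -/
noncomputable def wcoord (b : Module.Basis ι k A) (l : ι → N) (z : N → ι) (a : N) :
    WA k (b (z a)) →ₗ[k] ({i : ι // l i = a} → k) where
  toFun f i := f.1.fn (b i.1)
  map_add' f g := rfl
  map_smul' c f := rfl

theorem wcoord_bij (hB : IsPB b dg l r z) (a : N) : Function.Bijective (wcoord b l z a) := by
  constructor
  · rw [injective_iff_map_eq_zero]
    intro f hf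
    apply Subtype.ext
    apply b.ext
    intro i
    change f.1.fn (b i) = 0
    by_cases hi : l i = a
    · exact congrFun hf ⟨i, hi⟩
    · rw [← f.2 (b i), hB.z_mul, if_neg hi, map_zero]
  · intro y
    let f : A →ₗ[k] k := b.constr k (fun i => if h : l i = a then y ⟨i, h⟩ else 0)
    have hf : ∀ i, f (b i) = if h : l i = a then y ⟨i, h⟩ else 0 := by
      intro i
      rw [Module.Basis.constr_basis]
    have hfW : f ∘ₗ LinearMap.mulLeft k (b (z a)) = f := by
      apply b.ext
      intro i
      rw [LinearMap.comp_apply, LinearMap.mulLeft_apply, hB.z_mul]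
      by_cases hi : l i = a
      · rw [if_pos hi]
      · rw [if_neg hi, map_zero, hf, dif_neg hi]
    refine ⟨⟨DA.mk f, fun x => congrArg (fun φ => φ x) hfW⟩, ?_⟩
    funext i
    change f (b i.1) = y i
    rw [hf, dif_pos i.2]

/-- the dual basis -/
noncomputable def wb (hB : IsPB b dg l r z) (a : N) :
    Module.Basis {i : ι // l i = a} k (WA k (b (z a))) :=
  Module.Basis.ofEquivFun (LinearEquiv.ofBijective (wcoord b l z a) (wcoord_bij hB a))

theorem wb_repr (hB : IsPB b dg l r z) (a : N) (f : WA k (b (z a))) (i : {i : ι // l i = a}) :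
    (wb hB a).repr f i = f.1.fn (b i.1) := rfl

theorem wb_fn (hB : IsPB b dg l r z) (a : N) (i : {i : ι // l i = a}) (x : A) :
    (wb hB a i).1.fn x = b.repr x i.1 := by
  have h1 : ((wb hB a i).1.fn : A →ₗ[k] k) = b.coord i.1 := by
    apply b.ext
    intro j
    rw [Module.Basis.coord_apply, Module.Basis.repr_self, Finsupp.single_apply]
    by_cases hj : l j = a
    · have h2 := wb_repr hB a (wb hB a i) ⟨j, hj⟩
      rw [Module.Basis.repr_self, Finsupp.single_apply] at h2
      rw [← h2]
      by_cases hij : i = ⟨j, hj⟩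
      · rw [if_pos hij, if_pos (by rw [hij])]
      · rw [if_neg hij, if_neg (fun h => hij (Subtype.ext h.symm))]
    · rw [← (wb hB a i).2 (b j), hB.z_mul, if_neg hj, map_zero, if_neg]
      intro h
      exact hj (h ▸ i.2)
  rw [h1, Module.Basis.coord_apply]

theorem wb_isMB (hB : IsPB b dg l r z) (s : ℕ) (hs : ∀ i, dg i ≤ s) (a : N) :
    IsMB (M := WA k (b (z a))) b dg l r (wb hB a) (fun i : {i : ι // l i = a} => s - dg i.1)
      (fun i : {i : ι // l i = a} => r i.1) := by
  constructor
  intro p i q h
  rw [wb_repr] at h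
  change (wb hB a i).1.fn (b q.1 * b p) ≠ 0 at h
  rw [wb_fn] at h
  have h1 := hB.mul q.1 p i.1 h
  have h2 := hs i.1
  exact ⟨by have := h1.1; omega, h1.2.2.2, h1.2.2.1.symm⟩

theorem HS_W (s : ℕ) (a : N) : HS (fun i : {i : ι // l i = a} => s - dg i.1)
    (fun i : {i : ι // l i = a} => r i.1) = Cs dg l r s a := by
  funext c
  rw [HS, Cs, Matrix.of_apply]
  have h6 := Finset.sum_subtype (F := (inferInstance : Fintype {i : ι // l i = a}))
    (Finset.univ.filter (fun i : ι => l i = a))
    (p := fun i : ι => l i = a)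
    (fun x => by rw [Finset.mem_filter]; exact ⟨fun h => h.2, fun h => ⟨Finset.mem_univ _, h⟩⟩)
    (fun i : ι => if r i = c then (X : ℤ[X]) ^ (s - dg i) else 0)
  rw [Finset.sum_filter] at h6
  rw [← h6]
  refine Finset.sum_congr rfl (fun i _ => ?_)
  by_cases h1 : l i = a
  · rw [if_pos h1]
    by_cases h2 : r i = c
    · rw [if_pos h2, if_pos ⟨h1, h2⟩]
    · rw [if_neg h2, if_neg (fun h => h2 h.2)]
  · rw [if_neg h1, if_neg (fun h => h1 h.1)]

end Pool.Agent.Helper16.TN
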