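import Pool.Agent.Helper16.TN.Defs

/-!
# The graded free cover of a graded module and the homogeneous basis of its kernel
-/

set_option autoImplicit false
set_option linter.unusedVariables false
set_option linter.unusedSectionVars false

universe u

namespace Pool.Agent.Helper16.TN

variable {k A : Type u} [Field k] [Ring A] [Algebra k A]
variable {ι : Type} [Fintype ι] [DecidableEq ι]
variable {N : Type} [Fintype N] [DecidableEq N]
variable {M : Type u} [AddCommGroup M] [Module k M] [Module A M] [IsScalarTower k A M]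
variable {κ : Type} [Fintype κ] [DecidableEq κ]

/-- the projective module `⊕_j A e_{v j}` -/
def PM (b : Module.Basis ι k A) (z : N → ι) (v : κ → N) : Submodule A (κ → A) where
  carrier := {x | ∀ j, x j * b (z (v j)) = x j}
  add_mem' := by
    intro x y hx hy j
    rw [Pi.add_apply, add_mul, hx j, hy j]
  zero_mem' := by
    intro j
    rw [Pi.zero_apply, zero_mul]
  smul_mem' := by
    intro a x hx j
    rw [Pi.smul_apply, smul_eq_mul, mul_assoc, hx j]

theorem mem_PM {b : Module.Basis ι k A} {z : N → ι} {v : κ → N} {x : κ → A} :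
    x ∈ PM b z v ↔ ∀ j, x j * b (z (v j)) = x j := Iff.rfl

variable {b : Module.Basis ι k A} {dg : ι → ℕ} {l r : ι → N} {z : N → ι}

/-- the projection `A^κ → PM` -/
noncomputable def PMproj (hB : IsPB b dg l r z) (v : κ → N) : (κ → A) →ₗ[A] PM b z v where
  toFun x := ⟨fun j => x j * b (z (v j)), fun j => by
    rw [mul_assoc, hB.mul_z, if_pos (hB.zr _)]⟩
  map_add' x y := by
    apply Subtype.ext
    funext j
    exact add_mul _ _ _
  map_smul' a x := by
    apply Subtype.ext
    funext j
    exact mul_assoc _ _ _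

theorem PM_proj (hB : IsPB b dg l r z) (v : κ → N) : Module.Projective A (PM b z v) := by
  refine Module.Projective.of_split (PM b z v).subtype (PMproj hB v) ?_
  ext x : 1
  apply Subtype.ext
  funext j
  exact x.2 j

/-- the cover `PM → M` -/
noncomputable def pr (b : Module.Basis ι k A) (z : N → ι) (c : Module.Basis κ k M) (v : κ → N) :
    PM b z v →ₗ[A] M where
  toFun x := ∑ j, x.1 j • c j
  map_add' x y := by
    rw [← Finset.sum_add_distrib]
    exact Finset.sum_congr rfl (fun j _ => add_smul _ _ _)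
  map_smul' a x := by
    rw [Finset.smul_sum]
    exact Finset.sum_congr rfl (fun j _ => mul_smul _ _ _)

theorem pr_apply (c : Module.Basis κ k M) (v : κ → N) (x : PM b z v) :
    pr b z c v x = ∑ j, x.1 j • c j := rfl

/-- the element `x E_j` of `PM` -/
noncomputable def sg (b : Module.Basis ι k A) (z : N → ι) (v : κ → N) (j : κ) (x : A)
    (hx : x * b (z (v j)) = x) : PM b z v :=
  ⟨Pi.single j x, fun q => by
    by_cases hq : q = j
    · subst hq
      rw [Pi.single_eq_same, hx]
    · rw [Pi.single_eq_of_ne hq, zero_mul]⟩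

theorem pr_sg (c : Module.Basis κ k M) (v : κ → N) (j : κ) (x : A)
    (hx : x * b (z (v j)) = x) : pr b z c v (sg b z v j x hx) = x • c j := by
  rw [pr_apply, Finset.sum_eq_single j]
  · change (Pi.single j x : κ → A) j • c j = x • c j
    rw [Pi.single_eq_same]
  · intro q _ hq
    change (Pi.single j x : κ → A) q • c q = 0
    rw [Pi.single_eq_of_ne hq, zero_smul]
  · intro h
    exact absurd (Finset.mem_univ _) h

/-- the canonical lift of a vector of `M` -/
noncomputable def lf (b : Module.Basis ι k A) (z : N → ι) (c : Module.Basis κ k M) (v : κ → N)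
    (hB : IsPB b dg l r z) (m : M) : PM b z v :=
  ⟨fun q => c.repr m q • b (z (v q)), fun q => by
    rw [smul_mul_assoc, hB.mul_z, if_pos (hB.zr _)]⟩

variable {c : Module.Basis κ k M} {e : κ → ℕ} {v : κ → N}

theorem pr_lf (hB : IsPB b dg l r z) (hC : IsMB b dg l r c e v) (m : M) :
    pr b z c v (lf b z c v hB m) = m := by
  rw [pr_apply]
  conv_rhs => rw [← c.sum_repr m]
  refine Finset.sum_congr rfl (fun q _ => ?_)
  change (c.repr m q • b (z (v q))) • c q = _
  rw [smul_assoc, hC.z_act hB, if_pos rfl]

theorem pr_surj (hB : IsPB b dg l r z) (hC : IsMB b dg l r c e v) :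
    Function.Surjective (pr b z c v) := fun m => ⟨_, pr_lf hB hC m⟩

/-- the syzygy module -/
noncomputable abbrev Zk (b : Module.Basis ι k A) (z : N → ι) (c : Module.Basis κ k M) (v : κ → N) :
    Submodule A (PM b z v) := LinearMap.ker (pr b z c v)

/-- the index set of the homogeneous basis of the syzygy module -/
abbrev ZI (dg : ι → ℕ) (r : ι → N) (v : κ → N) : Type :=
  {p : ι × κ // 1 ≤ dg p.1 ∧ r p.1 = v p.2}

/-- the basis elements of the syzygy module -/
noncomputable def zel (hB : IsPB b dg l r z) (hC : IsMB b dg l r c e v) (p : ZI dg r v) :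
    Zk b z c v :=
  ⟨sg b z v p.1.2 (b p.1.1) (by rw [hB.mul_z, if_pos p.2.2]) -
    lf b z c v hB (b p.1.1 • c p.1.2), by
    rw [LinearMap.mem_ker, map_sub, pr_sg, pr_lf hB hC, sub_self]⟩

theorem zel_coe (hB : IsPB b dg l r z) (hC : IsMB b dg l r c e v) (p : ZI dg r v) (q : κ) :
    ((zel hB hC p : Zk b z c v).1).1 q = (Pi.single p.1.2 (b p.1.1) : κ → A) q -
      c.repr (b p.1.1 • c p.1.2) q • b (z (v q)) := rfl

/-- the coordinates of an element of the syzygy module -/
noncomputable def zcoord (b : Module.Basis ι k A) (dg : ι → ℕ) (r : ι → N) (z : N → ι)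
    (c : Module.Basis κ k M) (v : κ → N) : Zk b z c v →ₗ[k] (ZI dg r v → k) where
  toFun y p := b.repr (y.1.1 p.1.2) p.1.1
  map_add' x y := by
    funext p
    change b.repr (x.1.1 p.1.2 + y.1.1 p.1.2) p.1.1 = _
    rw [map_add]
    rfl
  map_smul' a x := by
    funext p
    change b.repr (a • x.1.1 p.1.2) p.1.1 = _
    rw [map_smul]
    rfl

theorem zcoord_apply (y : Zk b z c v) (p : ZI dg r v) :
    zcoord b dg r z c v y p = b.repr (y.1.1 p.1.2) p.1.1 := rfl

theorem repr_z_pos (hB : IsPB b dg l r z) {i : ι} (hi : 1 ≤ dg i) (a : N) :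
    b.repr (b (z a)) i = 0 := by
  rw [Module.Basis.repr_self, Finsupp.single_apply, if_neg]
  intro h
  have := hB.zdg a
  rw [h] at this
  omega

theorem zcoord_zel (hB : IsPB b dg l r z) (hC : IsMB b dg l r c e v) (p q : ZI dg r v) :
    zcoord b dg r z c v (zel hB hC p) q = if q = p then 1 else 0 := by
  rw [zcoord_apply, zel_coe, map_sub, map_smul, Finsupp.sub_apply, Finsupp.smul_apply,
    repr_z_pos hB q.2.1, smul_zero, sub_zero]
  by_cases h2 : q.1.2 = p.1.2
  · rw [h2, Pi.single_eq_same, Module.Basis.repr_self, Finsupp.single_apply]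
    by_cases h1 : p.1.1 = q.1.1
    · rw [if_pos h1, if_pos (Subtype.ext (Prod.ext h1.symm h2))]
    · rw [if_neg h1, if_neg]
      intro h
      exact h1 (by rw [h])
  · rw [Pi.single_eq_of_ne h2, map_zero, Finsupp.zero_apply, if_neg]
    intro h
    exact h2 (by rw [h])

theorem zcoord_bijective (hB : IsPB b dg l r z) (hC : IsMB b dg l r c e v) :
    Function.Bijective (zcoord b dg r z c v) := by
  constructor
  · rw [injective_iff_map_eq_zero]
    intro y hy
    have hy1 : ∀ (i : ι) (j : κ), i ≠ z (v j) → b.repr (y.1.1 j) i = 0 := by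
      intro i j hij
      by_cases hr : r i = v j
      · by_cases hd : 1 ≤ dg i
        · exact congrFun hy ⟨(i, j), hd, hr⟩
        · exfalso
          apply hij
          rw [← hr]
          exact hB.pos i (by omega)
      · have h1 := y.1.2 j
        rw [← h1, hB.repr_mul_z, if_neg hr]
    have hy2 : ∀ j, y.1.1 j = b.repr (y.1.1 j) (z (v j)) • b (z (v j)) := by
      intro j
      conv_lhs => rw [← b.sum_repr (y.1.1 j)]
      rw [Finset.sum_eq_single (z (v j))]
      · intro i _ hi
        rw [hy1 i j hi, zero_smul]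
      · intro h
        exact absurd (Finset.mem_univ _) h
    have h3 : ∑ j, y.1.1 j • c j = 0 := y.2
    have h4 : ∑ j, b.repr (y.1.1 j) (z (v j)) • c j = 0 := by
      rw [← h3]
      refine Finset.sum_congr rfl (fun j _ => ?_)
      conv_rhs => rw [hy2 j]
      rw [smul_assoc, hC.z_act hB, if_pos rfl]
    have h5 := Fintype.linearIndependent_iff.mp c.linearIndependent _ h4
    apply Subtype.ext
    apply Subtype.ext
    funext j
    rw [hy2 j, h5 j, zero_smul]
    rfl
  · intro x
    refine ⟨∑ p, x p • zel hB hC p, ?_⟩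
    funext q
    rw [map_sum, Finset.sum_apply]
    have : ∀ p, zcoord b dg r z c v (x p • zel hB hC p) q = x p * if q = p then 1 else 0 := by
      intro p
      rw [map_smul, Pi.smul_apply, zcoord_zel hB hC p q, smul_eq_mul]
    simp only [this, mul_ite, mul_one, mul_zero]
    rw [Finset.sum_ite_eq]
    simp

/-- the homogeneous basis of the syzygy module -/
noncomputable def zb (hB : IsPB b dg l r z) (hC : IsMB b dg l r c e v) :
    Module.Basis (ZI dg r v) k (Zk b z c v) :=
  Module.Basis.ofEquivFun (LinearEquiv.ofBijective (zcoord b dg r z c v) (zcoord_bijective hB hC))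

theorem zb_repr (hB : IsPB b dg l r z) (hC : IsMB b dg l r c e v) (y : Zk b z c v)
    (p : ZI dg r v) : (zb hB hC).repr y p = b.repr (y.1.1 p.1.2) p.1.1 := rfl

theorem zb_apply (hB : IsPB b dg l r z) (hC : IsMB b dg l r c e v) (p : ZI dg r v) :
    zb hB hC p = zel hB hC p := by
  apply (zb hB hC).repr.injective
  rw [Module.Basis.repr_self]
  ext q
  have h := zcoord_zel hB hC p q
  rw [zcoord_apply] at h
  rw [zb_repr, h, Finsupp.single_apply]
  simp only [eq_comm]

theorem zb_isMB (hB : IsPB b dg l r z) (hC : IsMB b dg l r c e v) :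
    IsMB (M := Zk b z c v) b dg l r (zb hB hC) (fun p : ZI dg r v => dg p.1.1 + e p.1.2)
      (fun p : ZI dg r v => l p.1.1) := by
  constructor
  intro i p q h
  rw [zb_repr] at h
  have e1 : ((b i • zb hB hC p : Zk b z c v).1).1 q.1.2 =
      b i * ((zel hB hC p : Zk b z c v).1).1 q.1.2 := by
    rw [zb_apply]
    rfl
  rw [e1, zel_coe, mul_sub, map_sub, Finsupp.sub_apply, mul_smul_comm, hB.mul_z] at h
  by_cases h1 : b.repr (b i * (Pi.single p.1.2 (b p.1.1) : κ → A) q.1.2) q.1.1 = 0
  · rw [h1, zero_sub, neg_ne_zero, map_smul, Finsupp.smul_apply, smul_eq_mul] at h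
    have h2 := left_ne_zero_of_mul h
    have h3 := right_ne_zero_of_mul h
    have h4 := hC.act p.1.1 p.1.2 q.1.2 h2
    by_cases h5 : r i = v q.1.2
    · rw [if_pos h5, Module.Basis.repr_self, Finsupp.single_apply] at h3
      have h6 : i = q.1.1 := by
        by_contra h7
        rw [if_neg h7] at h3
        exact h3 rfl
      refine ⟨?_, ?_, ?_⟩
      · rw [← h6, h4.1]
      · rw [h6]
      · rw [h5, h4.2.1]
    · rw [if_neg h5, map_zero, Finsupp.zero_apply] at h3
      exact absurd rfl h3
  · by_cases h2 : q.1.2 = p.1.2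
    · rw [h2, Pi.single_eq_same] at h1
      have h3 := hB.mul i p.1.1 q.1.1 h1
      refine ⟨?_, ?_, ?_⟩
      · rw [h3.1, h2]; ring
      · exact h3.2.1
      · exact h3.2.2.2
    · rw [Pi.single_eq_of_ne h2, mul_zero, map_zero, Finsupp.zero_apply] at h1
      exact absurd rfl h1

theorem Zk_exact : LinearMap.range (Zk b z c v).subtype = LinearMap.ker (pr b z c v) := by
  rw [Submodule.range_subtype]

/-- homogeneity of the components of basis elements of the syzygy module -/
theorem zb_comp (hB : IsPB b dg l r z) (hC : IsMB b dg l r c e v) (p : ZI dg r v) (q : κ) (i : ι)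
    (h : b.repr (((zb hB hC p : Zk b z c v).1).1 q) i ≠ 0) :
    dg i + e q = dg p.1.1 + e p.1.2 ∧ r i = v q := by
  rw [zb_apply, zel_coe, map_sub, Finsupp.sub_apply] at h
  by_cases h1 : b.repr ((Pi.single p.1.2 (b p.1.1) : κ → A) q) i = 0
  · rw [h1, zero_sub, neg_ne_zero, map_smul, Finsupp.smul_apply, smul_eq_mul] at h
    have h2 := left_ne_zero_of_mul h
    have h3 := right_ne_zero_of_mul h
    have h4 := hC.act p.1.1 p.1.2 q h2
    rw [Module.Basis.repr_self, Finsupp.single_apply] at h3
    have h6 : z (v q) = i := by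
      by_contra h7
      rw [if_neg h7] at h3
      exact h3 rfl
    rw [← h6, hB.zdg, hB.zr, h4.1]
    exact ⟨by omega, rfl⟩
  · by_cases h2 : q = p.1.2
    · rw [h2, Pi.single_eq_same, Module.Basis.repr_self, Finsupp.single_apply] at h1
      have h6 : p.1.1 = i := by
        by_contra h7
        rw [if_neg h7] at h1
        exact h1 rfl
      rw [← h6, h2]
      exact ⟨rfl, p.2.2⟩
    · rw [Pi.single_eq_of_ne h2, map_zero, Finsupp.zero_apply] at h1
      exact absurd rfl h1

end Pool.Agent.Helper16.TN
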